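import Pool.Agent.Lib.MP_140c34_gt.Model

/-! Assembly. -/

namespace Pool.Agent.Lib.MP_140c34_gt

open Matrix Equiv

theorem exists_inv (x : PowerSeries ℚ) (h : PowerSeries.constantCoeff x ≠ 0) :
    ∃ y, y * x = 1 ∧ PowerSeries.constantCoeff y = (PowerSeries.constantCoeff x)⁻¹ := by
  obtain ⟨y, hy⟩ := (PowerSeries.isUnit_iff_constantCoeff.2 (Ne.isUnit h)).exists_left_inv
  exact ⟨y, hy, eq_inv_of_mul_eq_one_left (by rw [← map_mul, hy, map_one])⟩

theorem consts (N : ℚ) (hN : N ≠ 0) : ∃ v vi δ di η η' c : PowerSeries ℚ,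
    ∃ a γ : Bool → PowerSeries ℚ, vi * v = 1 ∧ di * δ = 1 ∧ η' * η = 1 ∧
      PowerSeries.X * δ = vi - v ∧ PowerSeries.constantCoeff v = 1 ∧
      PowerSeries.constantCoeff δ = N ∧ PowerSeries.constantCoeff di = N⁻¹ ∧
      PowerSeries.constantCoeff c = N⁻¹ ∧
      (∀ b, PowerSeries.constantCoeff (a b) = 1 / 2 * (1 - N⁻¹ ^ 2)) ∧
      (∀ b, PowerSeries.constantCoeff (γ b) = sg b) ∧
      γ true * PowerSeries.X - c * PowerSeries.X ^ 2 = PowerSeries.X * η * vi ∧
      1 + a true * PowerSeries.X ^ 2 - di * (PowerSeries.X * η * vi) = η ∧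
      γ false * PowerSeries.X - c * PowerSeries.X ^ 2 = -(PowerSeries.X * η' * vi) ∧
      1 + a false * PowerSeries.X ^ 2 - di * -(PowerSeries.X * η' * vi)
        = η' * (1 + PowerSeries.X ^ 2) := by
  obtain ⟨z, hz⟩ : ∃ z : PowerSeries ℚ, z = PowerSeries.X := ⟨_, rfl⟩
  have z0 : PowerSeries.constantCoeff z = 0 := by simp [hz]
  rw [← hz]
  obtain ⟨u, hu⟩ : ∃ u : PowerSeries ℚ, PowerSeries.constantCoeff u = N / 2 :=
    ⟨PowerSeries.C (N / 2), by simp⟩
  obtain ⟨a, ha⟩ : ∃ a : PowerSeries ℚ, PowerSeries.constantCoeff a = 1 / 2 * (1 - N⁻¹ ^ 2) :=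
    ⟨PowerSeries.C (1 / 2 * (1 - N⁻¹ ^ 2)), by simp⟩
  obtain ⟨vi, h1, r1⟩ := exists_inv (1 - u * z) (by simp [z0])
  have r1 : PowerSeries.constantCoeff vi = 1 := by simpa [z0] using r1
  have rδ : PowerSeries.constantCoeff (vi * u * (2 - u * z)) = N := by
    simp [z0, r1, hu, map_ofNat]
  obtain ⟨di, h2, r2⟩ := exists_inv (vi * u * (2 - u * z)) (by rw [rδ]; exact hN)
  rw [rδ] at r2
  obtain ⟨e1, h3, r3⟩ := exists_inv (1 + z * (di * vi)) (by simp [z0])
  obtain ⟨e2, h4, r4⟩ := exists_inv (1 + z ^ 2 * a) (by simp [z0])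
  refine ⟨1 - u * z, vi, _, di, (1 + z ^ 2 * a) * e1, (1 + z * (di * vi)) * e2, di,
    fun b => cond b a ((1 - (di * vi) ^ 2 + z * (di * vi) - a) * e2),
    fun b => cond b ((1 + z ^ 2 * a) * e1 * vi + z * di)
      (-((1 + z * (di * vi)) * e2 * vi) + z * di), h1, h2, ?_, ?_, by simp [z0], rδ, r2, r2,
    ?_, ?_, ?_, ?_, ?_, ?_⟩
  · linear_combination (e2 * (1 + z ^ 2 * a)) * h3 + h4
  · linear_combination (-(1 - u * z)) * h1
  · rintro (_ | _)
    · simp [z0, r1, r2, r4, ha]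
      ring
    · exact ha
  · rintro (_ | _) <;> simp [z0, r1, r3, r4, sg]
  · simp only [cond_true]
    ring
  · simp only [cond_true]
    linear_combination (-(1 + z ^ 2 * a)) * h3
  · simp only [cond_false]
    ring
  · simp only [cond_false]
    linear_combination -h4

theorem ex_letter {S B : Type} [CommRing S] [Algebra ℚ S] [Ring B] [Algebra ℚ B] [Algebra S B]
    [IsScalarTower ℚ S B] (y : S) (c : ℚ) {T : B} (hT : T * T = 1) (b : Bool) :
    ex (cond b (y • (T - c • 1)) (-(y • (T - c • 1))))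
      = (1 + algebraMap ℚ S (1 / 2 * (1 - c ^ 2)) * y ^ 2 - algebraMap ℚ S c *
          (algebraMap ℚ S (sg b) * y - algebraMap ℚ S c * y ^ 2)) • (1 : B)
        + (algebraMap ℚ S (sg b) * y - algebraMap ℚ S c * y ^ 2) • T := by
  have h : algebraMap ℚ S (1 / 2) * 2 = 1 := by
    rw [← map_ofNat (algebraMap ℚ S), ← map_mul]
    simp
  rw [ex, ← algebraMap_smul S (1 / 2 : ℚ), ← algebraMap_smul S c, map_mul, map_sub, map_pow,
    map_one]
  generalize algebraMap ℚ S (1 / 2) = x at *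
  generalize algebraMap ℚ S c = d
  cases b <;>
  · simp only [cond_true, cond_false, sg, map_neg, map_one, mul_neg, neg_mul, neg_neg, mul_sub,
      sub_mul, smul_mul_assoc, mul_smul_comm, hT, one_mul, mul_one]
    match_scalars
    · linear_combination (d ^ 2 * y ^ 2) * h
    · linear_combination (-d * y ^ 2) * h

variable {m k : ℕ}

theorem hom_eq_one {A : Type} [CommGroup A] (hk : 2 ≤ k) (f : FreeGroup (Fin k) →* A)
    {w : FreeGroup (Fin k)} (hw : ∀ j, kill j w = 1) : f w = 1 := by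
  let f0 : FreeGroup (Fin k) →* A :=
    FreeGroup.lift fun l => if l = ⟨0, by omega⟩ then f (FreeGroup.of l) else 1
  have h1 : f = f.comp (kill ⟨0, by omega⟩) * f0 := by
    ext l
    by_cases h : l = ⟨0, by omega⟩ <;> simp [f0, kill, h]
  have h2 : f0 = f0.comp (kill ⟨1, by omega⟩) := by
    ext l
    by_cases h : l = ⟨1, by omega⟩ <;> simp [f0, kill, h]
  rw [h1, h2]
  simp [hw]

theorem chi_eq_one {A : Type} [CommRing A] (hk : 2 ≤ k) (χ : FreeGroup (Fin m ⊕ Fin k) →* Aˣ)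
    (hχ : ∀ i, χ (FreeGroup.of (Sum.inl i)) = 1) (W : FreeGroup (Fin m ⊕ Fin k))
    (hW : Function.Injective fun i : Fin (m + 1) => ((track W ^ (i : ℕ)) (0, 1)).1)
    (hw : ∀ j, kill j ((track W ^ (m + 1)) (0, 1)).2 = 1) : χ W = 1 := by
  let f : FreeGroup (Fin k) →* Aˣ := FreeGroup.lift fun j => χ (FreeGroup.of (Sum.inr j))
  have h := trace_track (ν := Unit)
    (((algebraMap A (Matrix Unit Unit A)).toMonoidHom.comp (Units.coeHom A)).comp f)
    (((algebraMap A (Matrix (Fin (m + 1) → Unit) (Fin (m + 1) → Unit) A)).toMonoidHom.comp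
      (Units.coeHom A)).comp χ)
    (fun i => by ext a b; simp [hχ, pmat, Subsingleton.elim a b])
    (fun j => by ext a b; simp [f, opAt, algebraMap_matrix_apply, Subsingleton.elim a b]) W hW
  simpa [hom_eq_one hk f hw, trace, algebraMap_matrix_apply] using h

theorem exists_phi {K : Type} [Field K] {v z : K} (hv : v ≠ 0) (hz : z ≠ 0) :
    ∃ φ : AddMonoidAlgebra ℤ (ℤ × ℤ) →+* K, ∀ a b, φ (mon a b) = v ^ a * z ^ b :=
  ⟨(AddMonoidAlgebra.lift ℤ K (ℤ × ℤ)
    { toFun := fun x => v ^ x.toAdd.1 * z ^ x.toAdd.2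
      map_one' := by simp
      map_mul' := fun x y => by
        simp only [toAdd_mul, Prod.fst_add, Prod.snd_add, zpow_add₀ hv, zpow_add₀ hz]
        ring }).toRingHom, fun a b => by simp [mon]⟩

theorem main {P : ℕ → Br → AddMonoidAlgebra ℤ (ℤ × ℤ)} (hP : IsHomfly P) (hk : 2 ≤ k)
    (W : FreeGroup (Fin m ⊕ Fin k))
    (hW : Function.Injective fun i : Fin (m + 1) => ((track W ^ (i : ℕ)) (0, 1)).1)
    (hw : ∀ j, kill j ((track W ^ (m + 1)) (0, 1)).2 = 1) (c0 : AddMonoidAlgebra ℤ (ℤ × ℤ))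
    (hS : ∀ S, P (m + 1 + k) (mixed S W) = c0) (π : Perm (Fin k)) :
    milnor π ((track W ^ (m + 1)) (0, 1)).2 = 0 := by
  obtain ⟨L, rfl⟩ := exists_list W
  obtain ⟨v, vi, δ, di, η, η', c, a, γ, hv, hdi, hη, hδ, rv, rδ, rdi, rc, ra, rγ, e1, e2, e3, e4⟩ :=
    consts (k + 1) (by positivity)
  obtain ⟨ι, hι⟩ : ∃ ι : PowerSeries ℚ →+* FractionRing (PowerSeries ℚ), Function.Injective ι :=
    ⟨algebraMap _ _, IsFractionRing.injective _ _⟩
  have hz0 : ι PowerSeries.X ≠ 0 := (map_ne_zero_iff ι hι).2 PowerSeries.X_ne_zero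
  have hv' : ι vi * ι v = 1 := by rw [← map_mul, hv, map_one]
  obtain ⟨φ, hφ⟩ := exists_phi (right_ne_zero_of_mul_eq_one hv') hz0
  have p1 : φ (mon 1 0) = ι v := by simp [hφ]
  have p2 : φ (mon (-1) 0) = ι vi := by simp [hφ, eq_inv_of_mul_eq_one_left hv']
  have p3 : φ (mon 0 1) = ι PowerSeries.X := by simp [hφ]
  have hint := hP.integral (Fin (k + 1)) ι PowerSeries.constantCoeff hv rv (by simp) hz0 hδ
    (by simp [rδ]) φ p1 p2 p3 (m + k)
  rw [show m + k + 1 = m + 1 + k by omega] at hint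
  choose τ0 hτ1 hτ2 using hint
  obtain ⟨τ, hτ1, hτ2⟩ : ∃ τ : Bn (m + 1 + k) → PowerSeries ℚ,
      (∀ x, ι (τ x) = ι δ * φ (P (m + 1 + k) x)) ∧
      ∀ x, PowerSeries.constantCoeff (τ x) = Fx (Fin (k + 1)) (m + 1 + k) (perm x) :=
    ⟨fun x => τ0 x.1 x.2, fun x => hτ1 _ _, fun x => hτ2 _ _⟩
  obtain ⟨s, hs⟩ : ∃ s : Fin m → Bn (m + 1 + k), ∀ i, (s i : Br) = g i :=
    ⟨fun i => ⟨g i, g_mem (by omega)⟩, fun _ => rfl⟩
  obtain ⟨t, ht⟩ : ∃ t : Fin k → Bn (m + 1 + k), ∀ j, (t j : Br) = band m j :=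
    ⟨fun j => ⟨band m j, Bn_mono (by omega) (band_mem m j)⟩, fun _ => rfl⟩
  have hsk : ∀ j x y, vi * τ (x * t j * y) - v * τ (x * (t j)⁻¹ * y)
      = PowerSeries.X * τ (x * y) := by
    intro j x y
    obtain ⟨u, hu, e⟩ := band_isBand m j
    have hu' : u ∈ Bn (m + 1 + k) := Bn_mono (by omega) hu
    have h := congrArg φ (hP.skein' (i := m + j) (by omega) (mul_mem x.2 hu')
      (mul_mem (inv_mem hu') y.2))
    apply hι
    simp only [map_mul, map_sub, p1, p2, p3, mul_assoc, mul_inv_cancel_left] at h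
    simp only [map_mul, map_sub, hτ1, Subgroup.coe_mul, Subgroup.coe_inv, ht, e,
      _root_.mul_inv_rev, inv_inv, mul_assoc]
    linear_combination ι δ * h
  have hlp : ∀ j : Fin k, ∀ x ∈ (Hj m k j).subgroupOf (Bn (m + 1 + k)),
      ∀ y ∈ (Hj m k j).subgroupOf (Bn (m + 1 + k)), τ (x * t j * y) = di * τ (x * y) := by
    intro j x hx y hy
    have h := congrArg φ (hP.loop (k - j - 1) j (by omega) _
      (mul_mem (Subgroup.mem_subgroupOf.1 hy) (Subgroup.mem_subgroupOf.1 hx)) _ (band_isBand m j))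
    have h1 := congrArg ι hδ
    have h2 := congrArg ι hdi
    rw [mul_assoc, ← ht, ← hP.conj _ _ (mul_mem x.2 (t j).2) _ y.2, ← hP.conj _ _ x.2 _ y.2] at h
    simp only [map_mul, map_sub, map_one, p1, p2, p3] at h h1 h2
    apply hι
    apply mul_left_cancel₀ hz0
    simp only [map_mul, hτ1, Subgroup.coe_mul]
    linear_combination h + φ (P (m + 1 + k) (x * t j * y)) * h1
      - ι PowerSeries.X * φ (P (m + 1 + k) (x * y)) * h2
  obtain ⟨q, hq⟩ : ∃ q : Fin k → Bool → MvPolynomial (Fin k) (PowerSeries ℚ), ∀ j b, q j b =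
      MvPolynomial.C (γ b) * MvPolynomial.X j - MvPolynomial.C c * MvPolynomial.X j ^ 2 :=
    ⟨_, fun _ _ => rfl⟩
  obtain ⟨p, hp⟩ : ∃ p : Fin k → Bool → MvPolynomial (Fin k) (PowerSeries ℚ), ∀ j b, p j b =
      1 + MvPolynomial.C (a b) * MvPolynomial.X j ^ 2 - MvPolynomial.C di * q j b :=
    ⟨_, fun _ _ => rfl⟩
  have hlin : ∀ j, NoLin j (FF s t τ p q L 1) := by
    intro j
    refine FF_noLin (H := (Hj m k j).subgroupOf _) (fun i => ?_) (fun l hl => ?_) (hlp j)
      (fun b => ?_) (fun b => ?_) (fun l b hl => ?_) L 1 (one_mem _)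
    · exact Subgroup.subset_closure (Or.inl ⟨i, i.2, hs i⟩)
    · exact Subgroup.subset_closure (Or.inr ⟨l, l.2, Fin.val_ne_of_ne hl, ht l⟩)
    · exact ⟨MvPolynomial.C (γ b) - MvPolynomial.C c * MvPolynomial.X j, by rw [hq]; ring⟩
    · rw [hp, sub_add_cancel]
      exact (NoLin.const j 1).add (NoLin.sq (Dvd.intro_left _ rfl))
    · simp [NoLin, hp, hq, scale_X, hl]
  have hev : ∀ S : Finset (Fin k), ι (MvPolynomial.eval
      (fun j => if j ∈ S then PowerSeries.X else 0) (FF s t τ p q L 1)) = ι δ * φ c0 := by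
    intro S
    let Λ : (PowerSeries ℚ)ˣ := ⟨η * vi ^ 2, η' * v ^ 2,
      by linear_combination (vi * v) ^ 2 * hη + (vi * v + 1) * hv,
      by linear_combination (vi * v) ^ 2 * hη + (vi * v + 1) * hv⟩
    let β : FreeGroup (Fin m ⊕ Fin k) →* Bn (m + 1 + k) :=
      FreeGroup.lift (Sum.elim s fun j => if j ∈ S then t j ^ 2 else 1)
    let χ : FreeGroup (Fin m ⊕ Fin k) →* (PowerSeries ℚ)ˣ :=
      FreeGroup.lift (Sum.elim (fun _ => 1) fun j => if j ∈ S then Λ else 1)
    have hβ : (Bn (m + 1 + k)).subtype.comp β = mixed S := by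
      ext (i | j)
      · simp [β, mixed, hs]
      · by_cases h : j ∈ S <;> simp [β, mixed, ht, h]
    rw [FF_eval s t τ p q _ (by simp) β χ (by simp [β]) (by simp [χ]) ?_ L 1,
      chi_eq_one hk χ (by simp [χ]) _ hW hw, Units.val_one, one_mul, one_mul, hτ1, ← hS S, ← hβ]
    · rfl
    intro j b x y
    by_cases h : j ∈ S
    · have k1 := hsk j (x * t j) y
      have k2 := hsk j (x * (t j)⁻¹) y
      have k3 := hsk j x y
      simp only [mul_inv_cancel_right, inv_mul_cancel_right] at k1 k2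
      cases b
      · simp only [hp, hq, lt, β, χ, Λ, h, map_sub, map_add, map_mul, map_pow, map_one, map_inv,
          MvPolynomial.eval_C, MvPolynomial.eval_X, if_true, cond_false, FreeGroup.lift_apply_of,
          Sum.elim_inr, Units.inv_mk, e3, e4, pow_two (t j), _root_.mul_inv_rev, ← mul_assoc x,
          ← mul_assoc (x * _)]
        linear_combination η' * v * k2 - η' * PowerSeries.X * k3 - η' * τ (x * y) * hv
      · simp only [hp, hq, lt, β, χ, Λ, h, map_sub, map_add, map_mul, map_pow, map_one,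
          MvPolynomial.eval_C, MvPolynomial.eval_X, if_true, cond_true, FreeGroup.lift_apply_of,
          Sum.elim_inr, e1, e2, pow_two (t j), ← mul_assoc x, ← mul_assoc (x * _)]
        linear_combination (-η * vi) * k1 - η * τ (x * y) * hv
    · cases b <;> simp [hp, hq, lt, β, χ, h]
  have h0 := alt_sum (by omega) _ hlin _ fun S => hι ((hev S).trans (hev ∅).symm)
  let Pm' : Bn (m + 1 + k) →* Matrix (Om m k (Fin (k + 1))) (Om m k (Fin (k + 1)))
      (MvPolynomial (Fin k) ℚ) :=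
    { toFun := fun x => Pm m k _ _ (perm x)
      map_one' := by simp [Pm_one]
      map_mul' := fun x y => by
        rw [Subgroup.coe_mul, map_mul, Pm_mul fun i => perm_fix x.2] }
  have h1 := FF_map (s := s) (t := t) (τ := τ) (p := p) (q := q)
    (MvPolynomial.map PowerSeries.constantCoeff) Pm' (fun x => by simp [Pm', hτ2, Pm_trace])
    (fun l => Psi m (k + 1 : ℚ)⁻¹ (uL l))
    (fun i b => by cases b <;> simp [uL, Psi_pmat, Pm', hs, perm_g]) (fun j b => by
      have e : Pm' (t j) = Pm m k _ _ (Equiv.swap m (m + 1 + j)) := by simp [Pm', ht, perm_band]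
      have e' : Pm' (t j) * Pm' (t j) = 1 := by
        rw [e, ← Pm_mul fun i hi => swap_apply_of_ne_of_ne (by omega) (by omega),
          Equiv.swap_mul_self, Pm_one]
      have := ex_letter (MvPolynomial.X j : MvPolynomial (Fin k) ℚ) (k + 1 : ℚ)⁻¹ e' b
      rw [uL, map_ex (Psi (k := k) (ν := Fin (k + 1)) m _),
        Bool.apply_cond (f := Psi (k := k) (ν := Fin (k + 1)) m _), map_neg, Psi_opAt, ← e, this]
      simp only [hp, hq, map_sub, map_add, map_mul, map_pow, map_one, MvPolynomial.map_C,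
        MvPolynomial.map_X, ra, rγ, rdi, rc, MvPolynomial.algebraMap_eq]) L 1
  refine model (by omega) (k + 1 : ℚ)⁻¹ L hW hw ?_ π
  rw [map_one, one_mul] at h1
  rw [← h1, MvPolynomial.coeff_map, h0]

end Pool.Agent.Lib.MP_140c34_gt
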