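import Pool.Agent.Lib.MP_140c34_gt.Rmat
import Pool.Agent.Lib.MP_140c34_gt.Main

/-! Existence of the HOMFLYPT polynomial of closed braids. -/

namespace Pool.Agent.Lib.MP_140c34_gt

open Equiv Function

/-- The axioms, with real values. -/
structure IsReal (v z : ℝ) (J : ℕ → Br → ℝ) : Prop where
  unk : J 1 1 = 1
  conj : ∀ n, ∀ x ∈ Bn n, ∀ y ∈ Bn n, J n (x * y) = J n (y * x)
  stab : ∀ n, ∀ x ∈ Bn (n + 1),
    J (n + 2) (x * g n) = J (n + 1) x ∧ J (n + 2) (x * (g n)⁻¹) = J (n + 1) x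
  skein : ∀ n i x y, v⁻¹ * J n (x * g i * y) - v * J n (x * (g i)⁻¹ * y) = z * J n (x * y)

theorem exists_real {q : ℝ} (hq : 0 < q) (N : ℕ) :
    ∃ J, IsReal (q⁻¹ ^ (N + 1)) (q - q⁻¹) J := by
  obtain ⟨v, hvq⟩ : ∃ v, v = q⁻¹ ^ (N + 1) := ⟨_, rfl⟩
  have hq0 := hq.ne'
  have hv : v ≠ 0 := by rw [hvq]; positivity
  rw [← hvq]
  obtain ⟨d, hd⟩ : ∃ d, d = ∑ b ∈ Finset.range (N + 1), (q⁻¹ ^ 2) ^ b := ⟨_, rfl⟩
  have hd0 : d ≠ 0 := by
    rw [hd]
    exact (Finset.sum_pos (fun _ _ => by positivity) ⟨0, by simp⟩).ne'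
  refine ⟨fun n x => qtr (N + 1) (q⁻¹ ^ 2) n (rep hq0 hv x) * (v * q) / ((v * q) ^ n * d),
    ?_, fun n x hx y hy => ?_, fun n x hx => ⟨?_, ?_⟩, fun n i x y => ?_⟩
  · have : qtr (N + 1) (q⁻¹ ^ 2) 1 1 = d := by
      rw [hd, qtr, sum_SS]
      simp [SS, wt]
    simp only [map_one, Units.val_one, this]
    field_simp
  · simp only [map_mul, Units.val_mul, qtr_comm (rep_loc hq0 hv hx) (rep_loc hq0 hv hy)]
  · have := qtr_op ((rep_loc hq0 hv hx).smul v) (cR q) q fun a ha => sum_cR' (N := N + 1) hq0 ha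
    simp only [map_mul, Units.val_mul, rep_g, mul_smul_comm, ← smul_mul_assoc, this]
    simp only [qtr, LinearMap.smul_apply, Pi.smul_apply, smul_eq_mul, mul_left_comm _ v,
      ← Finset.mul_sum]
    field_simp
    ring
  · have := qtr_op ((rep_loc (N := N + 1) (r := q⁻¹ ^ 2) hq0 hv hx).smul v⁻¹)
      (fun a b => cR q a b - (q - q⁻¹)) (v * v * q) fun a ha => by
        simp only [mul_sub _ _ (q - q⁻¹), Finset.sum_sub_distrib, sum_cR' hq0 ha,
          ← Finset.sum_mul]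
        rw [mul_comm _ (q - q⁻¹), sum_cR hq0, hvq]
        ring
    simp only [map_mul, Units.val_mul, rep_g_inv, Op_sub, mul_smul_comm, ← smul_mul_assoc, this]
    simp only [qtr, LinearMap.smul_apply, Pi.smul_apply, smul_eq_mul, mul_left_comm _ v⁻¹,
      ← Finset.mul_sum]
    field_simp
    ring
  · have e : ∀ (T T' : Module.End ℝ St) (a b : ℝ), qtr (N + 1) (q⁻¹ ^ 2) n (a • (T - b • T'))
        = a * (qtr (N + 1) (q⁻¹ ^ 2) n T - b * qtr (N + 1) (q⁻¹ ^ 2) n T') := by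
      intro T T' a b
      simp only [qtr, Finset.mul_sum, ← Finset.sum_sub_distrib]
      exact Finset.sum_congr rfl fun _ _ => by simp; ring
    have e' := fun T a => e T 0 a 0
    simp only [zero_smul, sub_zero, zero_mul] at e'
    simp only [map_mul, Units.val_mul, rep_g_inv, rep_g, mul_smul_comm, smul_mul_assoc, mul_sub,
      sub_mul, mul_one]
    rw [e, e']
    field_simp
    ring

theorem indep {r : ℝ} (hr : 0 < r) (hr1 : r ≠ 1) (t : Finset ℤ) (c : ℤ → ℝ)
    (h : ∀ N : ℕ, ∑ a ∈ t, c a * (r ^ a) ^ N = 0) : ∀ a ∈ t, c a = 0 := by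
  have hl := (linearIndependent_monoidHom (Multiplicative ℕ) ℝ).comp
    (fun a : ℤ => powersHom ℝ (r ^ a))
    ((powersHom ℝ).injective.comp (zpow_right_injective₀ hr hr1))
  refine linearIndependent_iff'.1 hl t c (funext fun N => ?_)
  simpa [Finset.sum_apply] using h N.toAdd

theorem exists_q (M : ℕ) : ∃ q : ℝ, 1 < q ∧ q - q⁻¹ = 2 ^ M := by
  have h2 : (0 : ℝ) < 2 ^ M := by positivity
  generalize (2 : ℝ) ^ M = z at h2
  have hs := Real.sq_sqrt (by positivity : 0 ≤ z ^ 2 + 4)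
  have h3 : 2 < √(z ^ 2 + 4) := Real.lt_sqrt_of_sq_lt (by nlinarith)
  refine ⟨(z + √(z ^ 2 + 4)) / 2, by linarith, ?_⟩
  have : z + √(z ^ 2 + 4) ≠ 0 := by linarith
  field_simp
  linear_combination hs

theorem phi_inj (q : ℕ → ℝ) (hq : ∀ M, 1 < q M)
    (φ : ℕ × ℕ → AddMonoidAlgebra ℤ (ℤ × ℤ) →+* ℝ)
    (hφ : ∀ s a b, φ s (mon a b) = ((q s.2)⁻¹ ^ (s.1 + 1)) ^ a * (2 ^ s.2) ^ b)
    {p p' : AddMonoidAlgebra ℤ (ℤ × ℤ)} (h : ∀ s, φ s p = φ s p') : p = p' := by
  rw [← sub_eq_zero]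
  have h : ∀ s, φ s (p - p') = 0 := fun s => by rw [map_sub, h, sub_self]
  generalize p - p' = p at h
  have e : p = ∑ a ∈ p.coeff.support.image Prod.fst, ∑ b ∈ p.coeff.support.image Prod.snd,
      p.coeff (a, b) • mon a b := by
    rw [← Finset.sum_product', ← Finset.sum_subset Finset.subset_product
      fun x _ hx => by rw [Finsupp.notMem_support_iff.1 hx, zero_smul]]
    conv_lhs => rw [← p.sum_coeff_single]
    simp [mon, Finsupp.sum]
  ext x
  by_contra hx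
  have hx := Finsupp.mem_support_iff.2 hx
  refine Finsupp.mem_support_iff.1 hx (Int.cast_eq_zero.1 (indep two_pos (by norm_num) _
    (fun b => (p.coeff (x.1, b) : ℝ)) (fun M => ?_) _ (Finset.mem_image_of_mem _ hx)))
  have hM : 0 < (q M)⁻¹ := inv_pos.2 (one_pos.trans (hq M))
  refine (mul_eq_zero.1 (indep hM (inv_lt_one_of_one_lt₀ (hq M)).ne _
    (fun a => (∑ b ∈ p.coeff.support.image Prod.snd, (p.coeff (a, b) : ℝ) * (2 ^ b) ^ M)
      * (q M)⁻¹ ^ a) (fun N => ?_) _ (Finset.mem_image_of_mem Prod.fst hx))).resolve_right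
    (zpow_ne_zero _ hM.ne')
  rw [← h (N, M)]
  conv_rhs => rw [e]
  simp only [map_sum, map_mul, map_intCast, hφ, zsmul_eq_mul, Finset.sum_mul]
  refine Finset.sum_congr rfl fun a _ => Finset.sum_congr rfl fun b _ => ?_
  rw [← zpow_natCast, ← zpow_natCast, ← zpow_natCast, ← zpow_natCast, ← zpow_mul, ← zpow_mul,
    ← zpow_mul, ← zpow_mul, mul_assoc, mul_assoc, ← zpow_add₀ hM.ne', mul_comm ((2 : ℝ) ^ _),
    mul_comm b]
  congr 3
  push_cast
  ring

theorem exists_homfly : ∃ P, IsHomfly P := by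
  classical
  choose q hq hz using exists_q
  have h0 : ∀ M, 0 < q M := fun M => one_pos.trans (hq M)
  choose J hJ using fun s : ℕ × ℕ => exists_real (h0 s.2) s.1
  simp only [hz] at hJ
  have hv : ∀ s : ℕ × ℕ, (q s.2)⁻¹ ^ (s.1 + 1) ≠ 0 := fun s => by have := h0 s.2; positivity
  have hz0 : ∀ s : ℕ × ℕ, (2 : ℝ) ^ s.2 ≠ 0 := fun s => by positivity
  choose φ hφ using fun s : ℕ × ℕ => exists_phi (hv s) (hz0 s)
  have tot : ∀ n, ∀ x ∈ Bn (n + 1), ∃ p, ∀ s, φ s p = J s (n + 1) x := by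
    intro n
    induction n with
    | zero => exact fun x hx => ⟨1, fun s => by rw [Bn_one hx, (hJ s).unk, map_one]⟩
    | succ n ih =>
      intro x hx
      have hc := span (n + 2) (n + 1) (by omega) x hx
      clear hx
      induction hc with
      | @base x hx =>
        rcases hx with hx | ⟨r, hr, y, hy, y', hy', rfl⟩
        · obtain ⟨p, hp⟩ := ih x hx
          refine ⟨(mon (-1) 0 - mon 1 0) * mon 0 (-1) * p, fun s => ?_⟩
          have h := (hJ s).skein (n + 2) n x 1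
          simp only [mul_one, ((hJ s).stab n x hx).1, ((hJ s).stab n x hx).2] at h
          simp only [map_mul, map_sub, hφ, hp, zpow_neg, zpow_one, zpow_zero, mul_one, one_mul]
          apply mul_left_cancel₀ (hz0 s)
          rw [← h]
          have := hz0 s
          field_simp
        · obtain rfl : n = r := by omega
          obtain ⟨p, hp⟩ := ih _ (mul_mem hy' hy)
          refine ⟨p, fun s => ?_⟩
          rw [hp, (hJ s).conj _ _ (mul_mem (Bn_mono (by omega) hy) (g_mem (by omega))) _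
            (Bn_mono (by omega) hy'), ← mul_assoc, ((hJ s).stab _ _ (mul_mem hy' hy)).1]
      | @pos a b i _ _ _ _ _ i1 i2 =>
        obtain ⟨p, hp⟩ := i1
        obtain ⟨p', hp'⟩ := i2
        refine ⟨mon 1 0 * (mon 1 0 * p' + mon 0 1 * p), fun s => ?_⟩
        simp only [map_mul, map_add, hφ, hp, hp', zpow_one, zpow_zero, mul_one, one_mul,
          ← (hJ s).skein (n + 1 + 1) i a b, add_sub_cancel, mul_inv_cancel_left₀ (hv s)]
      | @neg a b i _ _ _ _ _ i1 i2 =>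
        obtain ⟨p, hp⟩ := i1
        obtain ⟨p', hp'⟩ := i2
        refine ⟨mon (-1) 0 * (mon (-1) 0 * p' - mon 0 1 * p), fun s => ?_⟩
        simp only [map_mul, map_sub, hφ, hp, hp', zpow_neg, zpow_one, zpow_zero, mul_one, one_mul,
          ← (hJ s).skein (n + 1 + 1) i a b, sub_sub_cancel, inv_mul_cancel_left₀ (hv s)]
  obtain ⟨E, hE⟩ : ∃ E : (ℕ × ℕ → ℝ) → AddMonoidAlgebra ℤ (ℤ × ℤ),
      ∀ j, (∃ p, ∀ s, φ s p = j s) → ∀ s, φ s (E j) = j s :=
    ⟨fun j => if h : ∃ p, ∀ s, φ s p = j s then h.choose else 0,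
      fun j h s => by simpa only [dif_pos h] using h.choose_spec s⟩
  refine ⟨fun n x => E fun s => J s n x, ?_, fun n x hx y hy => ?_, fun n x hx => ⟨?_, ?_⟩,
    fun n i hi x hx => ?_⟩
  · exact phi_inj q hq φ hφ fun s => by rw [hE _ (tot 0 1 (one_mem _)), (hJ s).unk, map_one]
  · simp only [fun s => (hJ s).conj n x hx y hy]
  · simp only [fun s => ((hJ s).stab n x hx).1]
  · simp only [fun s => ((hJ s).stab n x hx).2]
  · obtain ⟨n, rfl⟩ : ∃ n', n = n' + 1 := ⟨n - 1, by omega⟩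
    refine phi_inj q hq φ hφ fun s => ?_
    have h := (hJ s).skein (n + 1) i x 1
    simp only [mul_one] at h
    simp only [map_mul, map_sub, hφ, hE _ (tot n _ hx), hE _ (tot n _ (mul_mem hx (g_mem hi))),
      hE _ (tot n _ (mul_mem hx (inv_mem (g_mem hi)))), zpow_neg, zpow_one, zpow_zero, mul_one,
      one_mul, h]

end Pool.Agent.Lib.MP_140c34_gt
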