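import Pool.Agent.Lib.MP_140c34_gt.Defs

/-! Identities in the braid group; the skein closure spanning lemma. -/

namespace Pool.Agent.Lib.MP_140c34_gt

open FreeGroup

theorem g_braid (i : ℕ) : g i * g (i + 1) * g i = g (i + 1) * g i * g (i + 1) := by
  exact PresentedGroup.mk_eq_mk_of_mul_inv_mem (rels := rels) (x := of i * of (i + 1) * of i)
    (y := of (i + 1) * of i * of (i + 1)) (Or.inl ⟨i, rfl⟩)

theorem g_comm {i j : ℕ} (h : i + 1 < j) : Commute (g i) (g j) := by
  exact PresentedGroup.mk_eq_mk_of_mul_inv_mem (rels := rels) (x := of i * of j)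
    (y := of j * of i) (Or.inr ⟨i, j, h, rfl⟩)

theorem g_mem {i n : ℕ} (h : i + 1 < n) : g i ∈ Bn n := Subgroup.subset_closure ⟨i, h, rfl⟩

theorem Bn_mono {a b : ℕ} (h : a ≤ b) : Bn a ≤ Bn b :=
  Subgroup.closure_mono fun _ ⟨i, hi, e⟩ => ⟨i, by omega, e⟩

theorem Bn_comm {n i : ℕ} {x : Br} (hx : x ∈ Bn n) (h : n ≤ i) : Commute x (g i) := by
  induction hx using Subgroup.closure_induction with
  | mem x hx => obtain ⟨j, hj, rfl⟩ := hx; exact g_comm (by omega)
  | one => exact Commute.one_left _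
  | mul x y _ _ hx hy => exact hx.mul_left hy
  | inv x _ hx => exact hx.inv_left

theorem Bn_one {x : Br} (hx : x ∈ Bn 1) : x = 1 := by
  induction hx using Subgroup.closure_induction with
  | mem x hx => obtain ⟨j, hj, rfl⟩ := hx; omega
  | one => rfl
  | mul x y _ _ hx hy => rw [hx, hy, one_mul]
  | inv x _ hx => rw [hx, inv_one]

/-- Conjugates of the last generator. -/
def IsBand (a : ℕ) (t : Br) : Prop := ∃ u ∈ Bn (a + 1), t = u * g a * u⁻¹

theorem IsBand.mem {a : ℕ} {t : Br} (h : IsBand a t) : t ∈ Bn (a + 2) := by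
  obtain ⟨u, hu, rfl⟩ := h
  have hu' := Bn_mono (Nat.le_succ _) hu
  exact mul_mem (mul_mem hu' (g_mem (by omega))) (inv_mem hu')

theorem IsBand.up {a : ℕ} {t : Br} (h : IsBand a t) :
    IsBand (a + 1) (g (a + 1) * t * (g (a + 1))⁻¹) := by
  obtain ⟨u, hu, rfl⟩ := h
  refine ⟨u * (g a)⁻¹, mul_mem (Bn_mono (Nat.le_succ _) hu) (inv_mem (g_mem (by omega))), ?_⟩
  have hc := (Bn_comm hu le_rfl).eq
  have hb := g_braid a
  calc g (a + 1) * (u * g a * u⁻¹) * (g (a + 1))⁻¹
      = (g (a + 1) * u) * g a * (g (a + 1) * u)⁻¹ := by group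
    _ = u * ((g a)⁻¹ * (g a * g (a + 1) * g a) * (g (a + 1))⁻¹) * u⁻¹ := by rw [← hc]; group
    _ = _ := by rw [hb]; group

theorem IsBand.down {a : ℕ} {t : Br} (h : IsBand a t) :
    IsBand (a + 1) ((g (a + 1))⁻¹ * t * g (a + 1)) := by
  obtain ⟨u, hu, rfl⟩ := h
  refine ⟨u * g a, mul_mem (Bn_mono (Nat.le_succ _) hu) (g_mem (by omega)), ?_⟩
  have hc := ((Bn_comm hu le_rfl).inv_right).eq
  have hb := g_braid a
  calc (g (a + 1))⁻¹ * (u * g a * u⁻¹) * g (a + 1)
      = ((g (a + 1))⁻¹ * u) * g a * ((g (a + 1))⁻¹ * u)⁻¹ := by group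
    _ = u * ((g (a + 1))⁻¹ * (g a * g (a + 1) * g a) * (g a)⁻¹) * u⁻¹ := by rw [← hc]; group
    _ = _ := by rw [hb]; group

theorem band_isBand (m j : ℕ) : IsBand (m + j) (band m j) := by
  induction j with
  | zero => exact ⟨1, one_mem _, by simp [band]⟩
  | succ j ih =>
    have := ih.down
    have e : m + 1 + j = m + j + 1 := by omega
    rw [band, e]
    exact this

theorem band_mem (m j : ℕ) : band m j ∈ Bn (m + j + 2) := (band_isBand m j).mem

theorem band_comm (m j l : ℕ) (h : j + 1 < l) : Commute (band m l) (g (m + 1 + j)) := by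
  induction l with
  | zero => omega
  | succ l ih =>
    rcases Nat.lt_or_ge (j + 1) l with h1 | h1
    · have h2 : Commute (g (m + 1 + l)) (g (m + 1 + j)) := (g_comm (by omega)).symm
      exact (h2.inv_left.mul_left (ih h1)).mul_left h2
    · obtain rfl : l = j + 1 := by omega
      have hc := (Bn_comm (band_mem m j) (by omega : m + j + 2 ≤ m + 1 + j + 1)).eq
      have hb := g_braid (m + 1 + j)
      have e : m + 1 + (j + 1) = m + 1 + j + 1 := by omega
      simp only [band, e]
      generalize g (m + 1 + j) = a at *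
      generalize g (m + 1 + j + 1) = b at *
      generalize band m j = t at *
      have hb' : b⁻¹ * a⁻¹ * b = a * b⁻¹ * a⁻¹ := by
        calc b⁻¹ * a⁻¹ * b = a * (a * b * a)⁻¹ * b := by group
          _ = _ := by rw [hb]; group
      calc b⁻¹ * (a⁻¹ * t * a) * b * a = b⁻¹ * a⁻¹ * t * (a * b * a) := by group
        _ = b⁻¹ * a⁻¹ * (t * b) * a * b := by rw [hb]; group
        _ = (b⁻¹ * a⁻¹ * b) * t * a * b := by rw [hc]; group
        _ = _ := by rw [hb']; group

/-- Braids in which the strand `m + 1 + j` stays straight. -/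
def Hj (m k j : ℕ) : Subgroup Br :=
  Subgroup.closure {x | (∃ i < m, x = g i) ∨ ∃ l < k, l ≠ j ∧ x = band m l}

theorem Hj_le (m k j : ℕ) : Hj m k j ≤ Bn (m + 1 + k) := by
  refine (Subgroup.closure_le _).2 ?_
  rintro x (⟨i, hi, rfl⟩ | ⟨l, hl, -, rfl⟩)
  · exact g_mem (by omega)
  · exact Bn_mono (by omega) (band_mem m l)

theorem Hj_last (m j : ℕ) : Hj m (j + 1) j ≤ Bn (m + j + 1) := by
  refine (Subgroup.closure_le _).2 ?_
  rintro x (⟨i, hi, rfl⟩ | ⟨l, hl, hne, rfl⟩)
  · exact g_mem (by omega)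
  · exact Bn_mono (by omega) (band_mem m l)

theorem Hj_step {m k j : ℕ} {x : Br} (hx : x ∈ Hj m k j) (hj : j < k) :
    g (m + 1 + j) * x * (g (m + 1 + j))⁻¹ ∈ Hj m k (j + 1) := by
  induction hx using Subgroup.closure_induction with
  | mem x hx =>
    refine Subgroup.subset_closure ?_
    rcases hx with ⟨i, hi, rfl⟩ | ⟨l, hl, hne, rfl⟩
    · refine Or.inl ⟨i, hi, ?_⟩
      rw [← (g_comm (by omega : i + 1 < m + 1 + j)).eq, mul_inv_cancel_right]
    · rcases Nat.lt_trichotomy l (j + 1) with h | h | h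
      · refine Or.inr ⟨l, hl, by omega, ?_⟩
        rw [← (Bn_comm (band_mem m l) (by omega : m + l + 2 ≤ m + 1 + j)).eq,
          mul_inv_cancel_right]
      · subst h
        refine Or.inr ⟨j, hj, by omega, ?_⟩
        rw [band]
        group
      · refine Or.inr ⟨l, hl, by omega, ?_⟩
        rw [← (band_comm m j l h).eq, mul_inv_cancel_right]
  | one => simp
  | mul x y _ _ hx hy => convert mul_mem hx hy using 1; group
  | inv x _ hx => convert inv_mem hx using 1; group

/-- The closure of a set of braids under the two switching directions of the skein relation. -/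
inductive Cl (n : ℕ) (T : Set Br) : Br → Prop
  | base {x : Br} : x ∈ T → Cl n T x
  | pos {a b : Br} {i : ℕ} : a ∈ Bn n → b ∈ Bn n → i + 1 < n → Cl n T (a * b) →
      Cl n T (a * (g i)⁻¹ * b) → Cl n T (a * g i * b)
  | neg {a b : Br} {i : ℕ} : a ∈ Bn n → b ∈ Bn n → i + 1 < n → Cl n T (a * b) →
      Cl n T (a * g i * b) → Cl n T (a * (g i)⁻¹ * b)

theorem Cl.trans {n : ℕ} {T T' : Set Br} {c d : Br} (hc : c ∈ Bn n) (hd : d ∈ Bn n)
    (h : ∀ x ∈ T, Cl n T' (c * x * d)) {x : Br} (hx : Cl n T x) : Cl n T' (c * x * d) := by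
  induction hx with
  | base hx => exact h _ hx
  | @pos a b i ha hb hi _ _ h1 h2 =>
    have := Cl.pos (T := T') (mul_mem hc ha) (mul_mem hb hd) hi
      (by simpa only [mul_assoc] using h1) (by simpa only [mul_assoc] using h2)
    simpa only [mul_assoc] using this
  | @neg a b i ha hb hi _ _ h1 h2 =>
    have := Cl.neg (T := T') (mul_mem hc ha) (mul_mem hb hd) hi
      (by simpa only [mul_assoc] using h1) (by simpa only [mul_assoc] using h2)
    simpa only [mul_assoc] using this

/-- Braids on `r + 1` strands with at most one crossing of the last two strands. -/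
def Tr (r : ℕ) : Set Br :=
  {x | x ∈ Bn r ∨ ∃ s, r = s + 1 ∧ ∃ y ∈ Bn r, ∃ y' ∈ Bn r, x = y * g s * y'}

theorem span (n r : ℕ) (hr : r < n) : ∀ x ∈ Bn (r + 1), Cl n (Tr r) x := by
  induction r with
  | zero =>
    intro x hx
    rw [Bn_one hx]
    exact Cl.base (Or.inl (one_mem _))
  | succ r ih =>
    have ih := ih (by omega)
    have up : ∀ {y : Br}, y ∈ Bn (r + 1) → y ∈ Bn n := fun h => Bn_mono (by omega) h
    have gr : g r ∈ Bn n := g_mem (by omega)
    have one : ∀ {y y' : Br}, y ∈ Bn (r + 1) → y' ∈ Bn (r + 1) →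
        Cl n (Tr (r + 1)) (y * g r * y') := fun h h' => Cl.base (Or.inr ⟨r, rfl, _, h, _, h', rfl⟩)
    have key : ∀ x ∈ Tr (r + 1), ∀ i, i + 1 < r + 2 → Cl n (Tr (r + 1)) (1 * x * g i) := by
      intro x hx i hi
      rw [one_mul]
      rcases Nat.lt_or_ge i r with h | h
      · have gi : g i ∈ Bn (r + 1) := g_mem (by omega)
        rcases hx with hx | ⟨s, hs, y, hy, y', hy', rfl⟩
        · exact Cl.base (Or.inl (mul_mem hx gi))
        · obtain rfl : r = s := by omega
          rw [mul_assoc]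
          exact one hy (mul_mem hy' gi)
      obtain rfl : i = r := by omega
      rcases hx with hx | ⟨s, hs, y, hy, y', hy', rfl⟩
      · simpa using one hx (one_mem _)
      obtain rfl : i = s := by omega
      refine Cl.trans (mul_mem (up hy) gr) gr ?_ (ih y' hy')
      rintro z (hz | ⟨s, hs, u, hu, u', hu', rfl⟩)
      · have hz' : z ∈ Bn (i + 1) := Bn_mono (by omega) hz
        have e : y * g i * z = y * z * g i := by
          rw [mul_assoc, ← (Bn_comm hz le_rfl).eq, mul_assoc]
        have := Cl.pos (T := Tr (i + 1)) (i := i) (mul_mem (mul_mem (up hy) (up hz')) gr)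
          (one_mem _) (by omega) (one (mul_mem hy hz') (one_mem _))
          (Cl.base (Or.inl (by simpa using mul_mem hy hz')))
        rw [e]
        simpa using this
      · subst hs
        have gs : g s ∈ Bn (s + 1 + 1) := g_mem (by omega)
        have e : y * g (s + 1) * (u * g s * u') * g (s + 1)
            = (y * u * g s) * g (s + 1) * (g s * u') := by
          have h1 := (Bn_comm hu le_rfl).eq
          have h2 := (Bn_comm hu' le_rfl).eq
          calc _ = y * (g (s + 1) * u) * g s * (u' * g (s + 1)) := by group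
            _ = y * u * (g (s + 1) * g s * g (s + 1)) * u' := by rw [← h1, h2]; group
            _ = _ := by rw [← g_braid]; group
        rw [e]
        exact one (mul_mem (mul_mem hy (Bn_mono (by omega) hu)) gs)
          (mul_mem gs (Bn_mono (by omega) hu'))
    intro x hx
    induction hx using Subgroup.closure_induction_right with
    | one => exact Cl.base (Or.inl (one_mem _))
    | mul_right x hx y hy h =>
      obtain ⟨i, hi, rfl⟩ := hy
      simpa using Cl.trans (one_mem _) (g_mem (by omega)) (fun z hz => key z hz i hi) h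
    | mul_inv_cancel x hx y hy h =>
      obtain ⟨i, hi, rfl⟩ := hy
      have h2 := Cl.trans (one_mem _) (g_mem (by omega)) (fun z hz => key z hz i hi) h
      have := Cl.neg (T := Tr (r + 1)) (i := i) (a := x) (Bn_mono (by omega : r + 1 + 1 ≤ n) hx)
        (one_mem _) (by omega) (by simpa using h) (by simpa using h2)
      simpa using this

end Pool.Agent.Lib.MP_140c34_gt
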