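import Pool.Agent.Lib.MP_140c34_gt.Exist

/-! Colourings that record the longitudes: a trivial sublink has a trivial word. -/

namespace Pool.Agent.Lib.MP_140c34_gt

open Equiv Function

variable {G : Type} [Group G]

/-- The meridian of a colour. -/
def mer (a : G × G) : G := a.1 * a.2 * a.1⁻¹

/-- Passing under a strand with meridian `μ`. -/
def und (μ : G) (a : G × G) : G × G := (μ * a.1 * a.2⁻¹, a.2)

/-- Passing back. -/
def dnu (μ : G) (a : G × G) : G × G := (μ⁻¹ * a.1 * a.2, a.2)

theorem mer_und (μ : G) (a : G × G) : mer (und μ a) = μ * mer a * μ⁻¹ := by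
  simp only [mer, und]
  group

theorem mer_dnu (μ : G) (a : G × G) : mer (dnu μ a) = μ⁻¹ * mer a * μ := by
  simp only [mer, dnu]
  group

/-- One crossing. -/
def crs (i : ℕ) : Perm (ℕ → G × G) where
  toFun c x := if x = i then c (i + 1) else if x = i + 1 then und (mer (c (i + 1))) (c i) else c x
  invFun c x := if x = i then dnu (mer (c i)) (c (i + 1)) else if x = i + 1 then c i else c x
  left_inv c := by
    funext x
    by_cases h : x = i
    · simp [h, und, dnu, mul_assoc]
    · by_cases h' : x = i + 1 <;> simp [h, h', und, dnu, mul_assoc]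
  right_inv c := by
    funext x
    by_cases h : x = i
    · simp [h, und, dnu, mul_assoc]
    · by_cases h' : x = i + 1 <;> simp [h, h', und, dnu, mul_assoc]

theorem crs_apply (i : ℕ) (c : ℕ → G × G) (x : ℕ) : crs i c x =
    if x = i then c (i + 1) else if x = i + 1 then und (mer (c (i + 1))) (c i) else c x := rfl

theorem crs_inv_apply (i : ℕ) (c : ℕ → G × G) (x : ℕ) : (crs i)⁻¹ c x =
    if x = i then dnu (mer (c i)) (c (i + 1)) else if x = i + 1 then c i else c x := rfl

/-- The action of braids on colourings. -/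
def col (G : Type) [Group G] : Br →* Perm (ℕ → G × G) :=
  PresentedGroup.toGroup (f := crs) (by
    rintro r (⟨i, rfl⟩ | ⟨i, j, h, rfl⟩)
    · simp only [map_mul, map_inv, FreeGroup.lift_apply_of, mul_inv_eq_one]
      refine Equiv.ext fun c => funext fun x => ?_
      have e : i + 1 + 1 ≠ i := by omega
      simp only [Perm.mul_apply, crs_apply, e, Nat.succ_ne_self, (Nat.succ_ne_self _).symm,
        e.symm, if_true, if_false, mer_und]
      split_ifs <;> first | rfl | omega | simp [und, mer, mul_assoc]
    · simp only [map_mul, map_inv, FreeGroup.lift_apply_of, mul_inv_eq_one]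
      refine Equiv.ext fun c => funext fun x => ?_
      simp only [Perm.mul_apply, crs_apply]
      split_ifs <;> first | rfl | omega)

theorem col_g (i : ℕ) : col G (g i) = crs i := PresentedGroup.toGroup.of _

theorem col_mer (x : Br) : ∀ c c' : ℕ → G × G, mer ∘ c = mer ∘ c' →
    mer ∘ col G x c = mer ∘ col G x c' := by
  have hx : x ∈ Subgroup.closure (Set.range g) :=
    (PresentedGroup.closure_range_of rels).ge (Subgroup.mem_top x)
  induction hx using Subgroup.closure_induction'' with
  | mem x hx =>
    obtain ⟨i, rfl⟩ := hx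
    intro c c' h
    have h := congrFun h
    funext x
    simp only [comp_apply, col_g, crs_apply] at h ⊢
    split_ifs <;> simp only [mer_und, h]
  | inv_mem x hx =>
    obtain ⟨i, rfl⟩ := hx
    intro c c' h
    have h := congrFun h
    funext x
    simp only [comp_apply, map_inv, col_g, crs_inv_apply] at h ⊢
    split_ifs <;> simp only [mer_dnu, h]
  | one => simp
  | mul x y _ _ h h' => exact fun c c' e => by simpa using h _ _ (h' _ _ e)

theorem col_upd {n : ℕ} {x : Br} (hx : x ∈ Bn n) (c : ℕ → G × G) (b : G × G) :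
    col G x (update c n b) = update (col G x c) n b := by
  induction hx using Subgroup.closure_induction generalizing c with
  | mem x hx =>
    obtain ⟨i, hi, rfl⟩ := hx
    funext x
    simp only [col_g, crs_apply, update_apply]
    split_ifs <;> first | rfl | omega
  | one => simp
  | mul x y _ _ h h' => simp [h, h']
  | inv x _ h => rw [map_inv, Perm.inv_eq_iff_eq, h]; simp

theorem col_top {n : ℕ} {x : Br} (hx : x ∈ Bn n) (c : ℕ → G × G) : col G x c n = c n := by
  simpa using congrFun (col_upd hx c (c n)) n

/-- Every colouring by meridians lifts. -/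
def Lifts (G : Type) [Group G] (x : Br) : Prop := ∀ c : ℕ → G × G, mer ∘ col G x c = mer ∘ c →
  ∃ c', mer ∘ c' = mer ∘ c ∧ col G x c' = c'

theorem Lifts.conj {x y : Br} (h : Lifts G (x * y)) : Lifts G (y * x) := by
  intro c hc
  obtain ⟨d, h1, h2⟩ := h (col G x c) (by simpa using col_mer x _ _ hc)
  refine ⟨col G y d, ?_, ?_⟩
  · rw [col_mer y _ _ h1, ← hc]
    simp
  · simpa using h2

theorem lifts_stab {n : ℕ} {x t : Br} (hx : x ∈ Bn (n + 1))
    (f1 : ∀ c : ℕ → G × G, c n = c (n + 1) → col G t c = c)
    (f2 : ∀ c : ℕ → G × G, mer (c n) = mer (c (n + 1)) → mer ∘ col G t c = mer ∘ c)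
    (f3 : ∀ c : ℕ → G × G, col G t c (n + 1) = c (n + 1) → c n = c (n + 1))
    (f4 : ∀ c : ℕ → G × G, mer (col G t c (n + 1)) = mer (c (n + 1)) →
      mer (c n) = mer (c (n + 1))) : Lifts G x ↔ Lifts G (x * t) := by
  simp only [Lifts, map_mul, Perm.mul_apply]
  refine ⟨fun h c hc => ?_, fun h c hc => ?_⟩
  · have e := f4 c (by simpa [col_top hx] using congrFun hc (n + 1))
    obtain ⟨d, h1, h2⟩ := h c ((col_mer x _ _ (f2 c e)).symm.trans hc)
    refine ⟨update d (n + 1) (d n), ?_, by rw [f1 _ (by simp), col_upd hx, h2]⟩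
    rw [comp_update, h1, show mer (d n) = (mer ∘ c) (n + 1) from (congrFun h1 n).trans e,
      update_eq_self]
  · obtain ⟨d, h1, h2⟩ := h (update c (n + 1) (c n))
      (by rw [f1 _ (by simp), col_upd hx, comp_update, comp_update, hc])
    rw [f1 d (f3 d (by simpa [col_top hx] using congrFun h2 (n + 1)))] at h2
    refine ⟨update d (n + 1) (c (n + 1)), ?_, by rw [col_upd hx, h2]⟩
    rw [comp_update, h1, comp_update, update_idem]
    exact update_eq_self _ _

theorem lifts_move {a b : ℕ × Br} (h : Relation.EqvGen Move a b) : Lifts G a.2 ↔ Lifts G b.2 := by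
  induction h with
  | refl => rfl
  | symm _ _ _ h => exact h.symm
  | trans _ _ _ _ _ h h' => exact h.trans h'
  | rel a b h =>
    have f1 : ∀ n, ∀ c : ℕ → G × G, c n = c (n + 1) → col G (g n) c = c := by
      intro n c e
      funext x
      simp only [col_g, crs_apply]
      split_ifs <;> simp_all [und, mer]
    have f2 : ∀ n, ∀ c : ℕ → G × G, mer (c n) = mer (c (n + 1)) →
        mer ∘ col G (g n) c = mer ∘ c := by
      intro n c e
      funext x
      simp only [comp_apply, col_g, crs_apply]
      split_ifs <;> simp_all [mer_und]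
    cases h with
    | conj => exact ⟨Lifts.conj, Lifts.conj⟩
    | @pos n x hx =>
      refine lifts_stab hx (f1 n) (f2 n) (fun c e => ?_) fun c e => ?_
      · simp only [col_g, crs_apply, Nat.succ_ne_self, if_true, if_false, und, mer,
          Prod.ext_iff] at e ⊢
        refine ⟨?_, e.2⟩
        rw [e.2, mul_inv_eq_iff_eq_mul, mul_assoc, mul_eq_left, inv_mul_eq_one] at e
        exact e.1.symm
      · simp only [col_g, crs_apply, Nat.succ_ne_self, if_true, if_false, mer_und] at e
        rwa [mul_inv_eq_iff_eq_mul, mul_right_inj] at e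
    | @neg n x hx =>
      refine lifts_stab hx (fun c e => ?_) (fun c e => ?_) (fun c e => ?_) fun c e => ?_
      · rw [map_inv, Perm.inv_eq_iff_eq, f1 n c e]
      · simpa using (col_mer (g n)⁻¹ _ _ (f2 n c e)).symm
      · simpa [col_g, crs_inv_apply] using e
      · simpa [col_g, crs_inv_apply] using e

theorem col_band (m j : ℕ) (c : ℕ → G × G) (hc : (c m).2 = 1) : col G (band m j ^ 2) c =
    update (update c m (und (mer (c (m + 1 + j))) (c m))) (m + 1 + j) (und 1 (c (m + 1 + j))) := by
  induction j generalizing c with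
  | zero =>
    funext x
    simp only [band, pow_two, map_mul, Perm.mul_apply, col_g, crs_apply, update_apply]
    split_ifs <;> first | rfl | omega | simp [und, mer, hc]
  | succ j ih =>
    have e : band m (j + 1) ^ 2 = (g (m + 1 + j))⁻¹ * band m j ^ 2 * g (m + 1 + j) := by
      simp only [band, pow_two]
      group
    rw [e, map_mul, map_mul, map_inv, Perm.mul_apply, Perm.mul_apply, Perm.inv_eq_iff_eq, col_g,
      ih _ (by rw [crs_apply, if_neg (by omega), if_neg (by omega), hc])]
    funext x
    simp only [crs_apply, update_apply, ← add_assoc]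
    split_ifs <;> first | rfl | omega | simp [mer_und]

variable {m k : ℕ}

theorem col_mixed (S : Finset (Fin k)) (κ : FreeGroup (Fin k) →* G)
    (μ : ℕ → G) (h0 : ∀ p ≤ m, μ p = 1)
    (h1 : ∀ j : Fin k, κ (FreeGroup.of j) = if j ∈ S then μ (m + 1 + j) else 1)
    (W : FreeGroup (Fin m ⊕ Fin k)) : ∀ c : ℕ → G × G, mer ∘ c = μ →
      mer ∘ col G (mixed S W) c = μ ∧ ∀ (a : Fin (m + 1) × FreeGroup (Fin k)) (r : G),
        (c a.1).1 = κ a.2 * r → (col G (mixed S W) c (track W a).1).1 = κ (track W a).2 * r := by
  have two : ∀ c : ℕ → G × G, mer ∘ c = μ → ∀ p ≤ m, (c p).2 = 1 := fun c hc p hp => by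
    simpa [mer, h0 p hp] using congrFun hc p
  induction W using FreeGroup.induction_on with
  | C1 => exact fun c hc => ⟨by simpa using hc, by simp⟩
  | of l =>
    intro c hc
    have hc' : ∀ x, mer (c x) = μ x := congrFun hc
    rcases l with i | j
    · have hi := i.2
      refine ⟨funext fun x => ?_, fun ⟨p, u⟩ r e => ?_⟩
      · simp only [mixed, FreeGroup.lift_apply_of, Sum.elim_inl, comp_apply, col_g, crs_apply]
        split_ifs with a b
        · rw [hc', a, h0 _ (by omega), h0 _ (by omega)]
        · rw [mer_und, hc', hc', b, h0 _ (by omega), h0 _ (by omega), mul_one, inv_one, mul_one]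
        · exact hc' x
      · simp only [mixed, track, FreeGroup.lift_apply_of, Sum.elim_inl, col_g, crs_apply,
          prodCongr_apply, Prod.map, coe_refl, id, swap_apply_def, Fin.ext_iff, ← show _ = _ from e,
          apply_ite Fin.val, Fin.val_succ, Fin.val_castSucc]
        split_ifs <;> first | rfl | omega | simp_all [und, h0 (i + 1) (by omega), two c hc i]
    · by_cases hj : j ∈ S
      · simp only [mixed, track, FreeGroup.lift_apply_of, Sum.elim_inr, if_pos hj,
          col_band m j c (two c hc m le_rfl)]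
        refine ⟨funext fun x => ?_, fun ⟨p, u⟩ r e => ?_⟩
        · simp only [comp_apply, update_apply]
          split_ifs <;> simp_all [mer_und]
        · have hp := p.2
          rw [Perm.fst_prodExtendRight, update_of_ne (by omega)]
          by_cases h : p = Fin.last m
          · subst h
            have e : (c m).1 = κ u * r := e
            simp [und, e, hc', h1, hj, two c hc m le_rfl, mul_assoc]
          · rw [update_of_ne (Fin.val_lt_last h).ne, Perm.prodExtendRight_apply_ne _ h, e]
      · refine ⟨by simpa [mixed, hj] using hc, fun ⟨p, u⟩ r e => ?_⟩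
        by_cases h : p = Fin.last m
        · subst h
          simpa [mixed, track, hj, h1] using e
        · simpa [mixed, track, hj, Perm.prodExtendRight_apply_ne _ h] using e
  | inv_of l h =>
    intro c hc
    have e1 : mer ∘ col G (mixed S (FreeGroup.of l)⁻¹) c = μ := by
      have := col_mer (mixed S (FreeGroup.of l)⁻¹) _ _ ((h c hc).1.trans hc.symm)
      rw [← this, ← hc]
      simp
    refine ⟨e1, fun a r e => ?_⟩
    have := (h _ e1).2 (track (FreeGroup.of l)⁻¹ a) _ (mul_inv_cancel_left _ _).symm
    simp only [map_inv, ← Perm.mul_apply, mul_inv_cancel, Perm.one_apply, e, mul_right_inj] at this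
    simp only [map_inv, this, mul_inv_cancel_left]
  | mul x y h h' =>
    intro c hc
    simp only [map_mul, Perm.mul_apply]
    exact ⟨(h _ (h' c hc).1).1, fun a r e => (h _ (h' c hc).1).2 _ r ((h' c hc).2 a r e)⟩

theorem kill_of_move (W : FreeGroup (Fin m ⊕ Fin k))
    (hW : Injective fun i : Fin (m + 1) => ((track W ^ (i : ℕ)) (0, 1)).1) (j : Fin k) {n : ℕ}
    (h : Relation.EqvGen Move (m + 1 + k, mixed (Finset.univ.erase j) W) (n, 1)) :
    kill j ((track W ^ (m + 1)) (0, 1)).2 = 1 := by
  have hl : Lifts (FreeGroup (Fin k)) (mixed (Finset.univ.erase j) W) :=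
    (lifts_move h).2 fun c _ => ⟨c, rfl, by simp⟩
  let μ : ℕ → FreeGroup (Fin k) := fun i =>
    if h : m + 1 ≤ i ∧ i - (m + 1) < k then FreeGroup.of ⟨i - (m + 1), h.2⟩ else 1
  have key := col_mixed (m := m) (Finset.univ.erase j) (kill j) μ
    (fun p hp => dif_neg (by omega)) (fun l => by simp [kill, μ, show m < m + 1 + l by omega]) W
  have e0 : mer ∘ (fun i => (1, μ i)) = μ := by
    funext i
    simp [mer]
  obtain ⟨c, h1, h2⟩ := hl _ ((key _ e0).1.trans e0.symm)
  have h3 := (key c (h1.trans e0)).2
  rw [h2] at h3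
  have h4 : ∀ i : ℕ, (c ((track W ^ i) (0, 1)).1).1
      = kill j ((track W ^ i) (0, 1)).2 * (c 0).1 := by
    intro i
    induction i with
    | zero => simp
    | succ i ih => rw [pow_succ', Perm.mul_apply]; exact h3 _ _ ih
  have h5 : ∀ i : ℕ, ((track W ^ (i + 1)) (0, 1)).1
      = (track W (((track W ^ i) (0, 1)).1, 1)).1 := fun i => by
    have := track_eqv W ((track W ^ i) (0, 1)).1 1 ((track W ^ i) (0, 1)).2
    rw [one_mul, Prod.mk.eta] at this
    rw [pow_succ', Perm.mul_apply, this]
  have h6 : ((track W ^ (m + 1)) (0, 1)).1 = 0 := by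
    obtain ⟨r, hr⟩ := Finite.injective_iff_surjective.1 hW ((track W ^ (m + 1)) (0, 1)).1
    rcases Fin.eq_zero_or_eq_succ r with rfl | ⟨i, rfl⟩
    · exact hr.symm
    · simp only [Fin.val_succ, h5] at hr
      exact absurd (hW (a₁ := i.castSucc) (a₂ := Fin.last m) ((track_eqv W).bij.1 hr))
        (Fin.castSucc_lt_last i).ne
  have := h4 (m + 1)
  rw [h6] at this
  simpa using this

end Pool.Agent.Lib.MP_140c34_gt
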