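import Mathlib

/-! Closed braids, the HOMFLYPT polynomial, mixed braids, Milnor numbers. -/

namespace Pool.Agent.Lib.MP_140c34_gt

open FreeGroup

/-- Artin's relations. -/
def rels : Set (FreeGroup ℕ) :=
  {r | (∃ i, r = of i * of (i + 1) * of i * (of (i + 1) * of i * of (i + 1))⁻¹) ∨
    ∃ i j, i + 1 < j ∧ r = of i * of j * (of j * of i)⁻¹}

/-- The braid group on the strands `0, 1, 2, …`. -/
abbrev Br : Type := PresentedGroup rels

/-- The crossing of the strands `i` and `i + 1`. -/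
def g (i : ℕ) : Br := PresentedGroup.of i

/-- The braid group on the first `n` strands. -/
def Bn (n : ℕ) : Subgroup Br := Subgroup.closure {x | ∃ i, i + 1 < n ∧ x = g i}

/-- The Markov moves; `(n, x)` stands for the closure of the `n`-braid `x`. -/
inductive Move : ℕ × Br → ℕ × Br → Prop
  | conj {n : ℕ} {x y : Br} : x ∈ Bn n → y ∈ Bn n → Move (n, x * y) (n, y * x)
  | pos {n : ℕ} {x : Br} : x ∈ Bn (n + 1) → Move (n + 1, x) (n + 2, x * g n)
  | neg {n : ℕ} {x : Br} : x ∈ Bn (n + 1) → Move (n + 1, x) (n + 2, x * (g n)⁻¹)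

/-- The monomial `v ^ a z ^ b` of `ℤ[v^±1, z^±1]`. -/
noncomputable def mon (a b : ℤ) : AddMonoidAlgebra ℤ (ℤ × ℤ) := AddMonoidAlgebra.single (a, b) 1

/-- `P n x` is the HOMFLYPT polynomial of the closure of the `n`-braid `x`. -/
structure IsHomfly (P : ℕ → Br → AddMonoidAlgebra ℤ (ℤ × ℤ)) : Prop where
  unk : P 1 1 = 1
  conj : ∀ n, ∀ x ∈ Bn n, ∀ y ∈ Bn n, P n (x * y) = P n (y * x)
  stab : ∀ n, ∀ x ∈ Bn (n + 1),
    P (n + 2) (x * g n) = P (n + 1) x ∧ P (n + 2) (x * (g n)⁻¹) = P (n + 1) x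
  skein : ∀ n i, i + 1 < n → ∀ x ∈ Bn n,
    mon (-1) 0 * P n (x * g i) - mon 1 0 * P n (x * (g i)⁻¹) = mon 0 1 * P n x

/-- The HOMFLYPT polynomial of closed braids. -/
noncomputable def homfly : ℕ → Br → AddMonoidAlgebra ℤ (ℤ × ℤ) := Classical.epsilon IsHomfly

/-- The half twist of the strands `m` and `m + 1 + j` along a band passing on one side of the
strands between them. -/
def band (m : ℕ) : ℕ → Br
  | 0 => g m
  | j + 1 => (g (m + 1 + j))⁻¹ * band m j * g (m + 1 + j)

variable {m k : ℕ}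

/-- Mixed braids: crossings of the moving strands `0, …, m`, and loops of strand `m` around the
straight strand `m + 1 + j`; the loops with `j ∉ S` are erased. -/
def mixed (S : Finset (Fin k)) : FreeGroup (Fin m ⊕ Fin k) →* Br :=
  lift (Sum.elim (fun i => g i) fun j => if j ∈ S then band m j ^ 2 else 1)

/-- Following a moving strand: its position, and the word of the loops it has made. -/
def track : FreeGroup (Fin m ⊕ Fin k) →* Equiv.Perm (Fin (m + 1) × FreeGroup (Fin k)) :=
  lift (Sum.elim (fun i => (Equiv.swap i.castSucc i.succ).prodCongr (Equiv.refl _))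
    fun j => Equiv.Perm.prodExtendRight (Fin.last m) (Equiv.mulLeft (of j)))

/-- The unit `1 + E (r, r + 1)`. -/
def elem (r : Fin k) : (Matrix (Fin (k + 1)) (Fin (k + 1)) ℤ)ˣ where
  val := 1 + Matrix.single r.castSucc r.succ 1
  inv := 1 - Matrix.single r.castSucc r.succ 1
  val_inv := by
    rw [add_mul, mul_sub, mul_sub, Matrix.single_mul_single_of_ne _ _ _ _ r.castSucc_lt_succ.ne']
    simp
  inv_val := by
    rw [sub_mul, mul_add, mul_add, Matrix.single_mul_single_of_ne _ _ _ _ r.castSucc_lt_succ.ne']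
    simp

/-- The coefficient of `X (π⁻¹ 0) ⋯ X (π⁻¹ (k - 1))` in the Magnus expansion of `w`. -/
def milnor (π : Equiv.Perm (Fin k)) (w : FreeGroup (Fin k)) : ℤ :=
  (lift (fun j => elem (π j)) w).val 0 (Fin.last k)

end Pool.Agent.Lib.MP_140c34_gt
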