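import Mathlib

/-! Expansion of a trace along a word, one variable for each straight strand. -/

namespace Pool.Agent.Lib.MP_140c34_gt

open MvPolynomial

/-- A letter with its sign. -/
def lt {α : Type} (l : α × Bool) : FreeGroup α := cond l.2 (FreeGroup.of l.1) (FreeGroup.of l.1)⁻¹

theorem exists_list {α : Type} (W : FreeGroup α) : ∃ L : List (α × Bool), W = (L.map lt).prod := by
  classical
  refine ⟨W.toWord, ?_⟩
  have h := FreeGroup.lift_mk (f := (FreeGroup.of : α → FreeGroup α)) (L := W.toWord)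
  rw [FreeGroup.mk_toWord, FreeGroup.lift_of_apply] at h
  exact h

variable {A : Type} [CommRing A] {m k : ℕ}

/-- The substitution `y j ↦ μ j * y j`. -/
noncomputable def scale (μ : Fin k → A) : MvPolynomial (Fin k) A →ₐ[A] MvPolynomial (Fin k) A :=
  aeval fun j => C (μ j) * X j

theorem scale_X (μ : Fin k → A) (j : Fin k) : scale μ (X j) = C (μ j) * X j := aeval_X _ _

theorem scale_C (μ : Fin k → A) (a : A) : scale μ (C a) = C a := aeval_C _ _

theorem coeff_scale (μ : Fin k → A) (d : Fin k →₀ ℕ) (f : MvPolynomial (Fin k) A) :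
    coeff d (scale μ f) = (∏ j, μ j ^ d j) * coeff d f := by
  classical
  induction f using MvPolynomial.induction_on' with
  | monomial e a =>
    have : scale μ (monomial e a) = monomial e ((∏ j, μ j ^ e j) * a) := by
      rw [scale, aeval_monomial, monomial_eq, Finsupp.prod_fintype _ _ (by simp),
        Finsupp.prod_fintype _ _ (by simp)]
      simp only [mul_pow, Finset.prod_mul_distrib, map_mul, map_prod, map_pow, algebraMap_eq]
      ring
    rw [this, coeff_monomial, coeff_monomial]
    split_ifs with h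
    · rw [h]
    · simp
  | add p q hp hq => simp only [map_add, coeff_add, hp, hq, mul_add]

/-- No monomial of degree one in `y j`. -/
def NoLin (j : Fin k) (f : MvPolynomial (Fin k) A) : Prop :=
  X j ^ 2 ∣ f - scale (Function.update 1 j 0) f

theorem NoLin.add {j : Fin k} {f f' : MvPolynomial (Fin k) A} (h : NoLin j f) (h' : NoLin j f') :
    NoLin j (f + f') := by
  have := dvd_add h h'
  rw [NoLin, map_add]
  convert this using 1
  ring

theorem NoLin.mul {j : Fin k} {f f' : MvPolynomial (Fin k) A} (h : NoLin j f) (h' : NoLin j f') :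
    NoLin j (f * f') := by
  have := dvd_add (h.mul_right (scale (Function.update 1 j 0) f')) (h'.mul_left f)
  rw [NoLin, map_mul]
  convert this using 1
  ring

theorem NoLin.sq {j : Fin k} {f : MvPolynomial (Fin k) A} (h : X j ^ 2 ∣ f) : NoLin j f := by
  obtain ⟨r, rfl⟩ := h
  simp [NoLin, scale_X]

theorem NoLin.const (j : Fin k) (a : A) : NoLin j (C a) := by simp [NoLin]

theorem NoLin.var {j l : Fin k} (h : l ≠ j) : NoLin j (X l : MvPolynomial (Fin k) A) := by
  simp [NoLin, scale_X, h]

theorem NoLin.coeff {j : Fin k} {f : MvPolynomial (Fin k) A} (h : NoLin j f) {d : Fin k →₀ ℕ}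
    (hd : d j = 1) : coeff d f = 0 := by
  classical
  obtain ⟨r, hr⟩ := h
  have h := congrArg (MvPolynomial.coeff d) hr
  rw [coeff_sub, coeff_scale, Finset.prod_eq_zero (Finset.mem_univ j) (by simp [hd]),
    X_pow_eq_monomial, coeff_monomial_mul', if_neg] at h
  · simpa using h
  · intro hle
    have := hle j
    simp [hd] at this

/-- The exponent `(e, …, e)`. -/
noncomputable def cst (k e : ℕ) : Fin k →₀ ℕ := Finsupp.equivFunOnFinite.symm fun _ => e

@[simp] theorem cst_apply (e : ℕ) (j : Fin k) : cst k e j = e := rfl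

theorem alt_sum (hk : 0 < k) (f : MvPolynomial (Fin k) (PowerSeries ℚ)) (hf : ∀ j, NoLin j f)
    (c : PowerSeries ℚ)
    (hc : ∀ S : Finset (Fin k), eval (fun j => if j ∈ S then PowerSeries.X else 0) f = c) :
    PowerSeries.constantCoeff (coeff (cst k 2) f) = 0 := by
  classical
  have h0 : ∑ S : Finset (Fin k), (-1 : PowerSeries ℚ) ^ S.card * c = 0 := by
    have := Finset.prod_add (fun _ : Fin k => (-1 : PowerSeries ℚ)) (fun _ => 1) Finset.univ
    rw [Finset.prod_eq_zero (Finset.mem_univ ⟨0, hk⟩) (by simp)] at this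
    rw [← Finset.sum_mul]
    simp only [Finset.prod_const, one_pow, mul_one, Finset.powerset_univ] at this
    rw [← this, zero_mul]
  have h1 : ∀ d : Fin k →₀ ℕ, ∑ S : Finset (Fin k), (-1 : PowerSeries ℚ) ^ S.card *
      ∏ j, (if j ∈ S then PowerSeries.X else 0) ^ d j
      = ∏ j, (-PowerSeries.X ^ d j + 0 ^ d j) := by
    intro d
    rw [Finset.prod_add, Finset.powerset_univ]
    refine Finset.sum_congr rfl fun S _ => ?_
    rw [← Finset.prod_mul_prod_compl S, Finset.prod_neg, mul_assoc, Finset.compl_eq_univ_sdiff]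
    congr 2
    · exact Finset.prod_congr rfl fun j hj => by rw [if_pos hj]
    · exact Finset.prod_congr rfl fun j hj => by rw [if_neg (Finset.mem_sdiff.1 hj).2]
  have h2 : ∑ d ∈ f.support, coeff d f * ∏ j, (-PowerSeries.X ^ d j + 0 ^ d j) = 0 := by
    refine Eq.trans ?_ h0
    simp only [← h1, Finset.mul_sum]
    rw [Finset.sum_comm]
    refine Finset.sum_congr rfl fun S _ => ?_
    rw [← hc S, eval_eq', Finset.mul_sum]
    exact Finset.sum_congr rfl fun d _ => by ring
  have h3 := congrArg (PowerSeries.coeff (2 * k)) h2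
  have h4 : ∀ d : Fin k →₀ ℕ, (∀ j, 2 ≤ d j) → ∏ j, (-PowerSeries.X ^ d j + 0 ^ d j)
      = PowerSeries.C ((-1 : ℚ) ^ k) * PowerSeries.X ^ (∑ j, d j) := by
    intro d hd
    rw [Finset.prod_congr rfl (g := fun j => -PowerSeries.X ^ d j)
      fun j _ => by rw [zero_pow (by have := hd j; omega), add_zero], Finset.prod_neg,
      Finset.prod_pow_eq_pow_sum]
    simp
  rw [map_sum, Finset.sum_eq_single (cst k 2), h4 _ (by simp)] at h3
  · have e : ∑ j, cst k 2 j = 2 * k := by simp [mul_comm]
    rw [e, ← mul_assoc, PowerSeries.coeff_mul_X_pow'] at h3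
    simpa using h3
  · intro d _ hd
    by_cases h : ∀ j, 2 ≤ d j
    · have hlt : ∑ j, cst k 2 j < ∑ j, d j := by
        refine Finset.sum_lt_sum (fun j _ => h j) ?_
        by_contra hcon
        push Not at hcon
        exact hd (Finsupp.ext fun j => le_antisymm (hcon j (Finset.mem_univ _)) (h j))
      have e : ∑ j, cst k 2 j = 2 * k := by simp [mul_comm]
      rw [h4 d h, ← mul_assoc, PowerSeries.coeff_mul_X_pow', if_neg (by omega)]
    · push Not at h
      obtain ⟨j, hj⟩ := h
      rcases (by omega : d j = 0 ∨ d j = 1) with h | h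
      · rw [Finset.prod_eq_zero (Finset.mem_univ j) (by simp [h])]
        simp
      · rw [(hf j).coeff h]
        simp
  · intro h
    rw [notMem_support_iff.1 h]
    simp

variable {G : Type} [Group G] (s : Fin m → G) (t : Fin k → G) (τ : G → A)
  (p q : Fin k → Bool → MvPolynomial (Fin k) A)

/-- The trace of a word in which each loop is replaced by `p + q t`. -/
noncomputable def FF : List ((Fin m ⊕ Fin k) × Bool) → G → MvPolynomial (Fin k) A
  | [], x => C (τ x)
  | (Sum.inl i, b) :: L, x => FF L (x * cond b (s i) (s i)⁻¹)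
  | (Sum.inr j, b) :: L, x => p j b * FF L x + q j b * FF L (x * t j)

theorem FF_eval (e : MvPolynomial (Fin k) A →+* A) (he : ∀ a, e (C a) = a)
    (β : FreeGroup (Fin m ⊕ Fin k) →* G) (χ : FreeGroup (Fin m ⊕ Fin k) →* Aˣ)
    (hβ : ∀ i, β (FreeGroup.of (Sum.inl i)) = s i) (hχ : ∀ i, χ (FreeGroup.of (Sum.inl i)) = 1)
    (h : ∀ j b x y, e (p j b) * τ (x * y) + e (q j b) * τ (x * t j * y)
      = χ (lt (Sum.inr j, b)) * τ (x * β (lt (Sum.inr j, b)) * y))
    (L : List ((Fin m ⊕ Fin k) × Bool)) :
    ∀ x, e (FF s t τ p q L x) = χ (L.map lt).prod * τ (x * β (L.map lt).prod) := by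
  induction L with
  | nil => intro x; simp [FF, he]
  | cons l L ih =>
    intro x
    rcases l with ⟨i | j, b⟩
    · cases b <;> simp [FF, ih, lt, hβ, hχ, mul_assoc]
    · simp only [FF, map_add, map_mul, ih, List.map_cons, List.prod_cons, Units.val_mul,
        ← mul_assoc]
      linear_combination (χ (L.map lt).prod : A) * h j b x (β (L.map lt).prod)

variable {s t τ p q} {H : Subgroup G} {j : Fin k} {di : A}

theorem FF_dvd (hs : ∀ i, s i ∈ H) (ht : ∀ l, l ≠ j → t l ∈ H)
    (hτ : ∀ x ∈ H, ∀ y ∈ H, τ (x * t j * y) = di * τ (x * y)) (hq : ∀ b, X j ∣ q j b)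
    (L : List ((Fin m ⊕ Fin k) × Bool)) : ∀ x ∈ H, ∀ y ∈ H,
      X j ∣ FF s t τ p q L (x * t j * y) - C di * FF s t τ p q L (x * y) := by
  induction L with
  | nil => intro x hx y hy; simp [FF, hτ x hx y hy]
  | cons l L ih =>
    intro x hx y hy
    rcases l with ⟨i | l, b⟩
    · have : cond b (s i) (s i)⁻¹ ∈ H := by cases b <;> simp [hs]
      simpa only [FF, mul_assoc] using ih x hx _ (mul_mem hy this)
    · by_cases hl : l = j
      · subst hl
        have := dvd_add ((ih x hx y hy).mul_left (p l b)) ((hq b).mul_right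
          (FF s t τ p q L (x * t l * y * t l) - C di * FF s t τ p q L (x * y * t l)))
        convert this using 1
        simp only [FF]
        ring
      · have := dvd_add ((ih x hx y hy).mul_left (p l b))
          ((ih x hx _ (mul_mem hy (ht l hl))).mul_left (q l b))
        convert this using 1
        simp only [FF, ← mul_assoc]
        ring

theorem FF_noLin (hs : ∀ i, s i ∈ H) (ht : ∀ l, l ≠ j → t l ∈ H)
    (hτ : ∀ x ∈ H, ∀ y ∈ H, τ (x * t j * y) = di * τ (x * y)) (hq : ∀ b, X j ∣ q j b)
    (hp : ∀ b, NoLin j (p j b + C di * q j b))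
    (hpq : ∀ l b, l ≠ j → NoLin j (p l b) ∧ NoLin j (q l b))
    (L : List ((Fin m ⊕ Fin k) × Bool)) : ∀ x ∈ H, NoLin j (FF s t τ p q L x) := by
  induction L with
  | nil => intro x _; exact NoLin.const _ _
  | cons l L ih =>
    intro x hx
    rcases l with ⟨i | l, b⟩
    · have : cond b (s i) (s i)⁻¹ ∈ H := by cases b <;> simp [hs]
      exact ih _ (mul_mem hx this)
    · by_cases hl : l = j
      · subst hl
        have h1 := mul_dvd_mul (hq b) (FF_dvd (p := p) hs ht hτ hq L x hx 1 (one_mem _))
        rw [← pow_two] at h1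
        have := ((hp b).mul (ih x hx)).add (NoLin.sq h1)
        convert this using 1
        simp only [FF, mul_one]
        ring
      · exact ((hpq l b hl).1.mul (ih x hx)).add ((hpq l b hl).2.mul (ih _ (mul_mem hx (ht l hl))))

theorem FF_map {B Ω : Type} [CommRing B] [Fintype Ω] [DecidableEq Ω]
    (r : MvPolynomial (Fin k) A →+* B) (Pm : G →* Matrix Ω Ω B)
    (hτ : ∀ x, r (C (τ x)) = (Pm x).trace) (Lt : (Fin m ⊕ Fin k) × Bool → Matrix Ω Ω B)
    (h1 : ∀ i b, Lt (Sum.inl i, b) = Pm (cond b (s i) (s i)⁻¹))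
    (h2 : ∀ j b, Lt (Sum.inr j, b) = r (p j b) • 1 + r (q j b) • Pm (t j))
    (L : List ((Fin m ⊕ Fin k) × Bool)) :
    ∀ x, r (FF s t τ p q L x) = (Pm x * (L.map Lt).prod).trace := by
  induction L with
  | nil => intro x; simp [FF, hτ]
  | cons l L ih =>
    intro x
    rcases l with ⟨i | l, b⟩
    · simp [FF, ih, h1, mul_assoc]
    · simp [FF, ih, h2, mul_assoc, add_mul, mul_add]

end Pool.Agent.Lib.MP_140c34_gt
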