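import Pool.Agent.Lib.MP_140c34_gt.Braid

/-! The HOMFLYPT polynomial near `v = 1`, `z = 0`: integrality and the leading term. -/

namespace Pool.Agent.Lib.MP_140c34_gt

open Equiv PowerSeries

/-- The permutation of a braid. -/
def perm : Br →* Perm ℕ :=
  PresentedGroup.toGroup (f := fun i => swap i (i + 1)) (by
    rintro r (⟨i, rfl⟩ | ⟨i, j, h, rfl⟩)
    · simp only [map_mul, map_inv, FreeGroup.lift_apply_of, mul_inv_eq_one]
      ext x
      simp only [Perm.mul_apply, swap_apply_def]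
      split_ifs <;> omega
    · simp only [map_mul, map_inv, FreeGroup.lift_apply_of, mul_inv_eq_one]
      ext x
      simp only [Perm.mul_apply, swap_apply_def]
      split_ifs <;> omega)

theorem perm_g (i : ℕ) : perm (g i) = swap i (i + 1) := PresentedGroup.toGroup.of _

theorem perm_fix {n : ℕ} {x : Br} (hx : x ∈ Bn n) {i : ℕ} (hi : n ≤ i) : perm x i = i := by
  induction hx using Subgroup.closure_induction with
  | mem x hx =>
    obtain ⟨j, hj, rfl⟩ := hx
    rw [perm_g, swap_apply_of_ne_of_ne (by omega) (by omega)]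
  | one => simp
  | mul x y _ _ hx hy => rw [map_mul, Perm.mul_apply, hy, hx]
  | inv x _ hx => rw [map_inv, Perm.inv_eq_iff_eq, hx]

variable (ν : Type) [Zero ν]

/-- The number of colourings of `n` strands that a permutation preserves. -/
noncomputable def Fx (n : ℕ) (σ : Perm ℕ) : ℕ :=
  Nat.card {f : ℕ → ν // (∀ i, n ≤ i → f i = 0) ∧ ∀ i, f (σ i) = f i}

theorem Fx_comm {n : ℕ} {σ τ : Perm ℕ} (hσ : ∀ i, n ≤ i → σ i = i) (hτ : ∀ i, n ≤ i → τ i = i) :
    Fx ν n (σ * τ) = Fx ν n (τ * σ) :=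
  Nat.card_congr
    { toFun := fun f => ⟨fun i => f.1 (σ i),
        fun i hi => (congrArg f.1 (hσ i hi)).trans (f.2.1 i hi),
        fun i => f.2.2 (σ i)⟩
      invFun := fun f => ⟨fun i => f.1 (τ i),
        fun i hi => (congrArg f.1 (hτ i hi)).trans (f.2.1 i hi),
        fun i => f.2.2 (τ i)⟩
      left_inv := fun f => Subtype.ext (funext fun i => f.2.2 i)
      right_inv := fun f => Subtype.ext (funext fun i => f.2.2 i) }

theorem Fx_zero (σ : Perm ℕ) : Fx ν 0 σ = 1 := by
  refine Nat.card_eq_one_iff_exists.2 ⟨⟨fun _ => 0, fun _ _ => rfl, fun _ => rfl⟩, fun f => ?_⟩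
  exact Subtype.ext (funext fun i => f.2.1 i (Nat.zero_le _))

omit [Zero ν] in
theorem upd_inv {n : ℕ} {σ : Perm ℕ} (hσ : σ n = n) {f : ℕ → ν} (hf : ∀ i, f (σ i) = f i) (a : ν)
    (i : ℕ) : Function.update f n a (σ i) = Function.update f n a i := by
  by_cases h : i = n
  · rw [h, hσ]
  · rw [Function.update_of_ne h, Function.update_of_ne, hf]
    intro e
    exact h (σ.injective (e.trans hσ.symm))

theorem Fx_succ {n : ℕ} {σ : Perm ℕ} (hσ : σ n = n) :
    Fx ν (n + 1) σ = Nat.card ν * Fx ν n σ := by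
  rw [Fx, Fx, ← Nat.card_prod]
  exact Nat.card_congr
    { toFun := fun f => (f.1 n, ⟨Function.update f.1 n 0, fun i hi => by
        by_cases h : i = n
        · simp [h]
        · rw [Function.update_of_ne h, f.2.1 i (by omega)], upd_inv ν hσ f.2.2 0⟩)
      invFun := fun p => ⟨Function.update p.2.1 n p.1, fun i hi => by
        rw [Function.update_of_ne (by omega), p.2.2.1 i (by omega)], upd_inv ν hσ p.2.2.2 _⟩
      left_inv := fun f => Subtype.ext (by simp)
      right_inv := fun p => Prod.ext (by simp) (Subtype.ext (by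
        simp [← p.2.2.1 n le_rfl])) }

theorem Fx_swap {n : ℕ} {σ : Perm ℕ} (h0 : σ (n + 1) = n + 1) :
    Fx ν (n + 2) (σ * swap n (n + 1)) = Fx ν (n + 1) σ := by
  have key : ∀ f : ℕ → ν, (∀ i, f ((σ * swap n (n + 1)) i) = f i) ↔
      f (n + 1) = f n ∧ ∀ i, f (σ i) = f i := by
    intro f
    constructor
    · intro h
      have h1 : f (n + 1) = f n := by simpa [h0] using h n
      refine ⟨h1, fun i => ?_⟩
      have := h (swap n (n + 1) i)
      rw [Perm.mul_apply, swap_apply_self] at this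
      rw [this, swap_apply_def]
      split_ifs with a b
      · rw [a, h1]
      · rw [b, h1]
      · rfl
    · rintro ⟨h1, h⟩ i
      rw [Perm.mul_apply, h, swap_apply_def]
      split_ifs with a b
      · rw [a, h1]
      · rw [b, h1]
      · rfl
  exact Nat.card_congr
    { toFun := fun f => ⟨Function.update f.1 (n + 1) 0, fun i hi => by
        by_cases h : i = n + 1
        · simp [h]
        · rw [Function.update_of_ne h, f.2.1 i (by omega)],
        upd_inv ν h0 ((key _).1 f.2.2).2 0⟩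
      invFun := fun f => ⟨Function.update f.1 (n + 1) (f.1 n), fun i hi => by
        rw [Function.update_of_ne (by omega), f.2.1 i (by omega)],
        (key _).2 ⟨by simp, upd_inv ν h0 f.2.2 _⟩⟩
      left_inv := fun f => Subtype.ext (by simp [← ((key _).1 f.2.2).1])
      right_inv := fun f => Subtype.ext (by simp [← f.2.1 (n + 1) le_rfl]) }

variable {P : ℕ → Br → AddMonoidAlgebra ℤ (ℤ × ℤ)}

theorem IsHomfly.skein' (hP : IsHomfly P) {n i : ℕ} (hi : i + 1 < n) {a b : Br} (ha : a ∈ Bn n)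
    (hb : b ∈ Bn n) : mon (-1) 0 * P n (a * g i * b) - mon 1 0 * P n (a * (g i)⁻¹ * b)
      = mon 0 1 * P n (a * b) := by
  have gi := g_mem hi
  rw [hP.conj n _ (mul_mem ha gi) _ hb, hP.conj n _ (mul_mem ha (inv_mem gi)) _ hb,
    hP.conj n _ ha _ hb, ← mul_assoc, ← mul_assoc]
  exact hP.skein n i hi _ (mul_mem hb ha)

theorem IsHomfly.free (hP : IsHomfly P) {n : ℕ} {x : Br} (hx : x ∈ Bn (n + 1)) :
    (mon (-1) 0 - mon 1 0) * P (n + 1) x = mon 0 1 * P (n + 2) x := by
  rw [← hP.skein (n + 2) n (by omega) x (Bn_mono (by omega) hx), (hP.stab n x hx).1,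
    (hP.stab n x hx).2, sub_mul]

theorem IsHomfly.loop (hP : IsHomfly P) {m k : ℕ} (d : ℕ) : ∀ j, j + d + 1 = k →
    ∀ x ∈ Hj m k j, ∀ t, IsBand (m + j) t →
      (mon (-1) 0 - mon 1 0) * P (m + 1 + k) (x * t) = mon 0 1 * P (m + 1 + k) x := by
  induction d with
  | zero =>
    rintro j rfl x hx t ⟨u, hu, rfl⟩
    have hx' : x ∈ Bn (m + j + 1) := Hj_last m j hx
    have up : ∀ {y : Br}, y ∈ Bn (m + j + 1) → y ∈ Bn (m + j + 2) := fun h => Bn_mono (by omega) h
    rw [show m + 1 + (j + 0 + 1) = m + j + 2 by omega, ← hP.free hx', ← mul_assoc, ← mul_assoc,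
      hP.conj _ _ (mul_mem (up (mul_mem hx' hu)) (g_mem (by omega))) _ (up (inv_mem hu)),
      ← mul_assoc, (hP.stab _ _ (mul_mem (inv_mem hu) (mul_mem hx' hu))).1,
      hP.conj _ _ (inv_mem hu) _ (mul_mem hx' hu), mul_inv_cancel_right]
  | succ d ih =>
    intro j hj x hx t ht
    have h := ih (j + 1) (by omega) _ (Hj_step hx (by omega)) _ ht.up
    have hx' := Hj_le m k j hx
    have ht' : t ∈ Bn (m + 1 + k) := Bn_mono (by omega) ht.mem
    have gp : g (m + 1 + j) ∈ Bn (m + 1 + k) := g_mem (by omega)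
    rw [show m + j + 1 = m + 1 + j by omega] at h
    rw [show g (m + 1 + j) * x * (g (m + 1 + j))⁻¹ * (g (m + 1 + j) * t * (g (m + 1 + j))⁻¹)
      = g (m + 1 + j) * (x * t) * (g (m + 1 + j))⁻¹ by group,
      hP.conj _ _ (mul_mem gp (mul_mem hx' ht')) _ (inv_mem gp), inv_mul_cancel_left,
      hP.conj _ _ (mul_mem gp hx') _ (inv_mem gp), inv_mul_cancel_left] at h
    exact h

theorem IsHomfly.integral (hP : IsHomfly P) {A K : Type} [CommRing A] [Field K] (ι : A →+* K)
    (res : A →+* ℚ) {v vi z δ : A} (hv : vi * v = 1) (hv1 : res v = 1) (hz : res z = 0)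
    (hz0 : ι z ≠ 0) (hδ : z * δ = vi - v) (hN : res δ = Nat.card ν)
    (φ : AddMonoidAlgebra ℤ (ℤ × ℤ) →+* K) (h1 : φ (mon 1 0) = ι v) (h2 : φ (mon (-1) 0) = ι vi)
    (h3 : φ (mon 0 1) = ι z) (n : ℕ) : ∀ x ∈ Bn (n + 1), ∃ a : A,
      ι a = ι δ * φ (P (n + 1) x) ∧ res a = Fx ν (n + 1) (perm x) := by
  have hvi : res vi = 1 := by simpa [hv1] using congrArg res hv
  have hv' : ι vi * ι v = 1 := by rw [← map_mul, hv, map_one]
  induction n with
  | zero =>
    intro x hx
    refine ⟨δ, by rw [Bn_one hx, hP.unk]; simp, ?_⟩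
    rw [Fx_succ ν (perm_fix (n := 0) (by rw [Bn_one hx]; exact one_mem _) le_rfl), Fx_zero, hN]
    simp
  | succ n ih =>
    intro x hx
    have hc := span (n + 2) (n + 1) (by omega) x hx
    clear hx
    induction hc with
    | @base x hx =>
      rcases hx with hx | ⟨s, hs, y, hy, y', hy', rfl⟩
      · obtain ⟨a, ha, ha'⟩ := ih x hx
        refine ⟨δ * a, ?_, ?_⟩
        · have h := congrArg φ (hP.free hx)
          have h' := congrArg ι hδ
          simp only [map_mul, map_sub, h1, h2, h3] at h h'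
          rw [map_mul, ha]
          congr 1
          apply mul_left_cancel₀ hz0
          rw [← h, ← h', mul_assoc]
        · rw [Fx_succ ν (perm_fix hx le_rfl), map_mul, hN, ha']
          simp
      · obtain rfl : n = s := by omega
        obtain ⟨a, ha, ha'⟩ := ih _ (mul_mem hy' hy)
        have up : ∀ {y : Br}, y ∈ Bn (n + 1) → y ∈ Bn (n + 2) := fun h => Bn_mono (by omega) h
        have hyg := mul_mem (up hy) (g_mem (by omega : n + 1 < n + 2))
        refine ⟨a, ?_, ?_⟩
        · rw [ha, hP.conj _ _ hyg _ (up hy'), ← mul_assoc, (hP.stab _ _ (mul_mem hy' hy)).1]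
        · rw [ha', map_mul perm _ y', Fx_comm ν (fun i => perm_fix hyg) (fun i => perm_fix (up hy')),
            ← map_mul, ← mul_assoc, map_mul perm _ (g n), perm_g,
            Fx_swap ν (perm_fix (mul_mem hy' hy) le_rfl)]
    | @pos a b i ha hb hi _ _ i1 i2 =>
      obtain ⟨s, hs, hs'⟩ := i1
      obtain ⟨t, ht, ht'⟩ := i2
      have h := congrArg φ (hP.skein' hi ha hb)
      simp only [map_mul, map_sub, h1, h2, h3] at h
      refine ⟨v * v * t + v * z * s, ?_, ?_⟩
      · simp only [map_mul, map_add, hs, ht]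
        linear_combination (-(ι δ * ι v)) * h + (ι δ * φ (P (n + 2) (a * g i * b))) * hv'
      · simp [hv1, hz, ht', perm_g]
    | @neg a b i ha hb hi _ _ i1 i2 =>
      obtain ⟨s, hs, hs'⟩ := i1
      obtain ⟨t, ht, ht'⟩ := i2
      have h := congrArg φ (hP.skein' hi ha hb)
      simp only [map_mul, map_sub, h1, h2, h3] at h
      refine ⟨vi * vi * t - vi * z * s, ?_, ?_⟩
      · simp only [map_mul, map_sub, hs, ht]
        linear_combination (ι δ * ι vi) * h + (ι δ * φ (P (n + 2) (a * (g i)⁻¹ * b))) * hv'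
      · simp [hvi, hz, ht', perm_g]

end Pool.Agent.Lib.MP_140c34_gt
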