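import Pool.Agent.Lib.MP_140c34_gt.Univ
import Pool.Agent.Lib.MP_140c34_gt.Hecke

/-! The leading term in the tensor model. -/

namespace Pool.Agent.Lib.MP_140c34_gt

open MvPolynomial Matrix Equiv

set_option linter.unusedSectionVars false

variable {m k : ℕ} {ν : Type} [Fintype ν] [DecidableEq ν] [Zero ν]

/-- Colourings of the moving and of the straight strands. -/
abbrev Om (m k : ℕ) (ν : Type) : Type := (Fin (m + 1) → ν) × (Fin k → ν)

/-- A colouring, extended by zero. -/
def extd (ω : Om m k ν) (i : ℕ) : ν :=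
  if h : i < m + 1 then ω.1 ⟨i, h⟩ else if h' : i - (m + 1) < k then ω.2 ⟨i - (m + 1), h'⟩ else 0

theorem extd_fst (ω : Om m k ν) (p : Fin (m + 1)) : extd ω p = ω.1 p := by
  simp [extd, p.2]

theorem extd_snd (ω : Om m k ν) (j : Fin k) : extd ω (m + 1 + j) = ω.2 j := by
  rw [extd, dif_neg (by omega)]
  simp

theorem extd_big (ω : Om m k ν) {i : ℕ} (h : m + 1 + k ≤ i) : extd ω i = 0 := by
  rw [extd, dif_neg (by omega), dif_neg (by omega)]

theorem nat_cases (m k i : ℕ) :
    (∃ p : Fin (m + 1), i = p) ∨ (∃ j : Fin k, i = m + 1 + j) ∨ m + 1 + k ≤ i := by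
  by_cases h : i < m + 1
  · exact Or.inl ⟨⟨i, h⟩, rfl⟩
  · by_cases h' : i < m + 1 + k
    · exact Or.inr (Or.inl ⟨⟨i - (m + 1), by omega⟩, by simp only; omega⟩)
    · exact Or.inr (Or.inr (by omega))

theorem extd_iff {f : ℕ → ν} (hf : ∀ i, m + 1 + k ≤ i → f i = 0) (ω : Om m k ν) :
    (∀ i, f i = extd ω i) ↔ (∀ p : Fin (m + 1), f p = ω.1 p) ∧ ∀ j : Fin k, f (m + 1 + j) = ω.2 j := by
  refine ⟨fun h => ⟨fun p => by rw [h, extd_fst], fun j => by rw [h, extd_snd]⟩, fun h i => ?_⟩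
  rcases nat_cases m k i with ⟨p, rfl⟩ | ⟨j, rfl⟩ | hi
  · rw [h.1, extd_fst]
  · rw [h.2, extd_snd]
  · rw [hf i hi, extd_big _ hi]

theorem extd_iff' {f : ℕ → ν} (hf : ∀ i, m + 1 + k ≤ i → f i = 0) (ω : Om m k ν) :
    (∀ i, f i = extd ω i) ↔ ω = (fun p : Fin (m + 1) => f p, fun j : Fin k => f (m + 1 + j)) := by
  rw [extd_iff hf]
  simp [Prod.ext_iff, funext_iff, eq_comm]

open Classical in
/-- The matrix of a permutation of the strands. -/
noncomputable def Pm (m k : ℕ) (ν R : Type) [Zero ν] [CommRing R] (σ : Perm ℕ) :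
    Matrix (Om m k ν) (Om m k ν) R :=
  of fun ω ω' => if ∀ i, extd ω (σ i) = extd ω' i then 1 else 0

variable {R : Type} [CommRing R]

theorem Pm_one : Pm m k ν R 1 = 1 := by
  classical
  ext ω ω'
  simp only [Pm, of_apply, one_apply, Perm.one_apply]
  refine if_congr ⟨fun h => ?_, fun h => h ▸ fun _ => rfl⟩ rfl rfl
  rw [(extd_iff' (fun i => extd_big ω) ω').1 h]
  simp [extd_fst, extd_snd]

theorem Pm_mul {σ : Perm ℕ} (hσ : ∀ i, m + 1 + k ≤ i → σ i = i) (τ : Perm ℕ) :
    Pm m k ν R (σ * τ) = Pm m k ν R σ * Pm m k ν R τ := by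
  classical
  ext ω ω'
  have h := extd_iff' (m := m) (k := k) (f := fun i => extd ω (σ i))
    fun i hi => by rw [hσ i hi, extd_big _ hi]
  simp only [Pm, of_apply, mul_apply, h, ite_mul, one_mul, zero_mul, Finset.sum_ite_eq',
    Finset.mem_univ, if_true]
  refine if_congr (forall_congr' fun i => ?_) rfl rfl
  rw [← (h _).2 rfl (τ i), Perm.mul_apply]

theorem Pm_trace (σ : Perm ℕ) : (Pm m k ν R σ).trace = Fx ν (m + 1 + k) σ := by
  classical
  simp only [trace, diag, Pm, of_apply, Finset.sum_boole]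
  congr 1
  rw [← Fintype.card_subtype, ← Nat.card_eq_fintype_card]
  exact Nat.card_congr
    { toFun := fun ω => ⟨extd ω.1, fun i => extd_big _, ω.2⟩
      invFun := fun f => ⟨(fun p => f.1 p, fun j => f.1 (m + 1 + j)), fun i => by
        rw [← (extd_iff' f.2.1 _).2 rfl, ← (extd_iff' f.2.1 _).2 rfl, f.2.2]⟩
      left_inv := fun ω => Subtype.ext (by simp [extd_fst, extd_snd])
      right_inv := fun f => Subtype.ext (funext fun i => ((extd_iff' f.2.1 _).2 rfl i).symm) }

theorem perm_band (m j : ℕ) : perm (band m j) = swap m (m + 1 + j) := by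
  induction j with
  | zero => exact perm_g m
  | succ j ih =>
    rw [band, map_mul, map_mul, map_inv, ih, perm_g, swap_inv]
    ext x
    simp only [Perm.mul_apply, swap_apply_def]
    split_ifs <;> omega

/-- The matrix model of the straight strands. -/
noncomputable def md1 (c : ℚ) :
    Un k ν →ₐ[ℚ] Matrix (Fin k → ν) (Fin k → ν) (MvPolynomial (Fin k) ℚ) :=
  MonoidAlgebra.lift ℚ _ _
    { toFun := fun u => tens (fun j => FreeMonoid.lift
        (fun ab => (X j : MvPolynomial (Fin k) ℚ) • (xi c ab).map C) (u j)) fun q => q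
      map_one' := by simp [tens_pmat, pmat_id]
      map_mul' := fun u u' => by
        rw [tens_mul _ _ _ (π' := fun q => q) Function.bijective_id]
        simp }

theorem md1_trace (c : ℚ) (u : Uw k ν) :
    coeff (cst k 2) (md1 c (MonoidAlgebra.single u 1)).trace
      = if ∀ j, (u j).length = 2 then ∏ j, (FreeMonoid.lift (xi c) (u j)).trace else 0 := by
  rw [← coeff_prod]
  simp only [md1, MonoidAlgebra.lift_single, one_smul, MonoidHom.coe_mk, OneHom.coe_mk,
    trace_tens, lift_smul, trace_smul, smul_eq_mul]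
  congr 1
  refine Finset.prod_congr rfl fun j _ => ?_
  have : FreeMonoid.lift (fun ab => (xi c ab).map (C : ℚ →+* MvPolynomial (Fin k) ℚ))
      = (C : ℚ →+* MvPolynomial (Fin k) ℚ).mapMatrix.toMonoidHom.comp
        (FreeMonoid.lift (xi (ν := ν) c)) := by
    ext1 ab
    simp
  rw [this]
  simp [trace]

theorem md1_uX (c : ℚ) (j : Fin k) (a b : ν) :
    md1 c (uX j a b) = opAt j ((X j : MvPolynomial (Fin k) ℚ) • (xi c (a, b)).map C) := by
  rw [← tens_opAt]
  simp only [md1, uX, of_apply, MonoidAlgebra.lift_single, one_smul, MonoidHom.coe_mk,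
    OneHom.coe_mk]
  congr 1
  funext l
  by_cases h : l = j
  · subst h
    simp
  · simp [h]

/-- The model of all strands. -/
noncomputable def Psi (m : ℕ) (c : ℚ) : Matrix (Fin (m + 1) → ν) (Fin (m + 1) → ν) (Un k ν) →ₐ[ℚ]
    Matrix (Om m k ν) (Om m k ν) (MvPolynomial (Fin k) ℚ) :=
  (compAlgEquiv _ _ _ ℚ).toAlgHom.comp (md1 c).mapMatrix

theorem Psi_apply (c : ℚ) (Z : Matrix (Fin (m + 1) → ν) (Fin (m + 1) → ν) (Un k ν))
    (ω ω' : Om m k ν) : Psi m c Z ω ω' = md1 c (Z ω.1 ω'.1) ω.2 ω'.2 := rfl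

theorem Psi_pmat (c : ℚ) (i : Fin m) : Psi m c (pmat (Un k ν) (swap i.castSucc i.succ))
    = Pm m k ν _ (swap (i : ℕ) (i + 1)) := by
  ext1 ω ω'
  have hi := i.2
  have h := extd_iff (m := m) (k := k) (f := fun x => extd ω (swap (i : ℕ) (i + 1) x))
    (fun x hx => by rw [swap_apply_of_ne_of_ne (by omega) (by omega), extd_big _ hx]) ω'
  have h1 : ∀ p : Fin (m + 1), swap (i : ℕ) (i + 1) p = (swap i.castSucc i.succ p : Fin (m + 1)) := by
    intro p
    simp only [swap_apply_def, Fin.ext_iff, Fin.val_castSucc, Fin.val_succ]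
    split_ifs <;> rfl
  have h2 : ∀ j : Fin k, swap (i : ℕ) (i + 1) (m + 1 + j) = m + 1 + j :=
    fun j => swap_apply_of_ne_of_ne (by omega) (by omega)
  simp only [h1, h2, extd_fst, extd_snd] at h
  simp only [Psi_apply, pmat, Pm, of_apply, h]
  split_ifs <;> simp_all [one_apply, funext_iff]

theorem forall_split {α : Type} (a : α) {P : α → Prop} :
    (∀ x, P x) ↔ (∀ x, x ≠ a → P x) ∧ P a :=
  ⟨fun h => ⟨fun x _ => h x, h a⟩, fun h x => by
    by_cases e : x = a
    · exact e ▸ h.2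
    · exact h.1 x e⟩

theorem Psi_opAt (c : ℚ) (j : Fin k) : Psi m c (opAt (Fin.last m) (uX (ν := ν) j))
    = (X j : MvPolynomial (Fin k) ℚ) • (Pm m k ν _ (swap m (m + 1 + j)) - c • 1) := by
  ext1 ω ω'
  have hj := j.2
  have h := extd_iff (m := m) (k := k) (f := fun x => extd ω (swap m (m + 1 + j) x))
    (fun x hx => by rw [swap_apply_of_ne_of_ne (by omega) (by omega), extd_big _ hx]) ω'
  have h1 : (∀ p : Fin (m + 1), extd ω (swap m (m + 1 + j) p) = ω'.1 p) ↔
      (∀ p, p ≠ Fin.last m → ω.1 p = ω'.1 p) ∧ ω.2 j = ω'.1 (Fin.last m) := by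
    rw [forall_split (Fin.last m), Fin.val_last, swap_apply_left, extd_snd]
    refine and_congr_left' (forall₂_congr fun p hp => ?_)
    have := Fin.val_lt_last hp
    rw [swap_apply_of_ne_of_ne (by omega) (by omega), extd_fst]
  have h2 : (∀ l : Fin k, extd ω (swap m (m + 1 + j) (m + 1 + l)) = ω'.2 l) ↔
      (∀ l, l ≠ j → ω.2 l = ω'.2 l) ∧ ω.1 (Fin.last m) = ω'.2 j := by
    rw [forall_split j, swap_apply_right, ← extd_fst ω (Fin.last m), Fin.val_last]
    refine and_congr_left' (forall₂_congr fun l hl => ?_)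
    have := Fin.val_ne_of_ne hl
    rw [swap_apply_of_ne_of_ne (by omega) (by omega), extd_snd]
  have h3 : ω = ω' ↔ ((∀ p, p ≠ Fin.last m → ω.1 p = ω'.1 p) ∧ ω.1 (Fin.last m) = ω'.1 (Fin.last m))
      ∧ (∀ l, l ≠ j → ω.2 l = ω'.2 l) ∧ ω.2 j = ω'.2 j := by
    rw [Prod.ext_iff, funext_iff, funext_iff, forall_split (Fin.last m), forall_split j]
  rw [h1, h2] at h
  simp only [Psi_apply, Pm, Matrix.smul_apply, Matrix.sub_apply, of_apply, one_apply, h, h3]
  by_cases hA : ∀ p, p ≠ Fin.last m → ω.1 p = ω'.1 p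
  · rw [opAt, of_apply, if_pos hA, md1_uX, opAt, of_apply]
    by_cases hB : ∀ l, l ≠ j → ω.2 l = ω'.2 l
    · rw [if_pos hB]
      simp only [eq_true hA, eq_true hB, true_and, xi, Matrix.smul_apply, map_apply,
        Matrix.sub_apply, single_apply, map_sub, eq_comm (a := ω.2 j) (b := ω'.1 (Fin.last m))]
      congr 2
      · split_ifs <;> simp
      · by_cases e : ω.1 (Fin.last m) = ω'.1 (Fin.last m) <;>
          by_cases e' : ω.2 j = ω'.2 j <;> simp [e, e', one_apply, smul_eq_C_mul]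
    · rw [if_neg hB]
      simp [hB]
  · rw [opAt, of_apply, if_neg hA]
    simp [hA]

theorem opAt_mul {ι : Type} [Fintype ι] [DecidableEq ι] (p : ι) (M M' : Matrix ν ν R) :
    opAt p M * opAt p M' = opAt p (M * M') := by
  rw [← tens_opAt, ← tens_opAt, ← tens_opAt, Pi.mulSingle_mul,
    tens_mul _ _ _ (π' := fun q => q) Function.bijective_id]
  rfl

theorem opAt_one {ι : Type} [Fintype ι] [DecidableEq ι] (p : ι) :
    opAt p (1 : Matrix ν ν R) = 1 := by
  rw [← tens_opAt, Pi.mulSingle_one, ← pmat_id, ← tens_pmat]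
  rfl

theorem opAt_ex {ι : Type} [Fintype ι] [DecidableEq ι] [Algebra ℚ R] (p : ι) (M : Matrix ν ν R) :
    ex (opAt p M) = opAt p (ex M) := by
  rw [ex, opAt_mul, ← opAt_one (ν := ν) p]
  ext f f'
  simp only [opAt, ex, of_apply, Matrix.add_apply, Matrix.smul_apply]
  split_ifs <;> simp

theorem opAt_neg {ι : Type} [Fintype ι] [DecidableEq ι] (p : ι) (M : Matrix ν ν R) :
    -opAt p M = opAt p (-M) := by
  ext f f'
  simp only [opAt, of_apply, Matrix.neg_apply]
  split_ifs <;> simp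

theorem hom_list {α N : Type} [Monoid N] (Θ : FreeGroup α →* N) (Lt : α × Bool → N)
    (h1 : ∀ a, Lt (a, true) = Θ (FreeGroup.of a)) (h2 : ∀ a, Lt (a, true) * Lt (a, false) = 1)
    (L : List (α × Bool)) : Θ (L.map lt).prod = (L.map Lt).prod := by
  rw [map_list_prod, List.map_map]
  congr 2
  funext ⟨a, b⟩
  cases b
  · exact left_inv_eq_right_inv (a := Θ (FreeGroup.of a)) (by simp [lt, ← map_mul])
      (h1 a ▸ h2 a)
  · exact (h1 a).symm

/-- The universal letters. -/
noncomputable def uL : (Fin m ⊕ Fin k) × Bool →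
    Matrix (Fin (m + 1) → ν) (Fin (m + 1) → ν) (Un k ν)
  | (Sum.inl i, _) => pmat _ (swap i.castSucc i.succ)
  | (Sum.inr j, b) => ex (cond b (opAt (Fin.last m) (uX j)) (-opAt (Fin.last m) (uX j)))

theorem md_uL (M : Fin k → Matrix ν ν ℚ) (L : List ((Fin m ⊕ Fin k) × Bool))
    (hW : Function.Injective fun i : Fin (m + 1) =>
      ((track (L.map lt).prod ^ (i : ℕ)) (0, 1)).1) :
    md M (L.map uL).prod.trace = (rho M ((track (L.map lt).prod ^ (m + 1)) (0, 1)).2).trace := by
  have e1 : ∀ i b, (md M).mapMatrix (uL (m := m) (Sum.inl i, b))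
      = pmat _ (swap i.castSucc i.succ) := by
    intro i b
    ext f f'
    simp only [uL, pmat, AlgHom.mapMatrix_apply, map_apply, of_apply]
    split_ifs <;> simp
  have e2 : ∀ j, (md M).mapMatrix (opAt (Fin.last m) (uX j)) = opAt (Fin.last m) (yM j (M j)) := by
    intro j
    ext f f'
    simp only [← md_uX, opAt, AlgHom.mapMatrix_apply, map_apply, of_apply]
    split_ifs <;> simp
  have e3 : ∀ j b, (md M).mapMatrix (uL (m := m) (Sum.inr j, b))
      = opAt (Fin.last m) (rho M (lt (j, b))) := by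
    intro j b
    rw [uL, map_ex ((md M).mapMatrix (m := Fin (m + 1) → ν))]
    cases b
    · simp only [cond_false, map_neg, e2, opAt_neg, opAt_ex, lt, rho_inv]
    · simp only [cond_true, e2, opAt_ex, lt, rho_of]
  have e4 : ∀ l, (md M).mapMatrix (uL (m := m) (l, true)) * (md M).mapMatrix (uL (l, false))
      = 1 := by
    rintro (i | j)
    · rw [e1, e1, ← tens_pmat, tens_mul _ _ _ (Equiv.swap _ _).bijective]
      simp [tens_pmat, pmat_id]
    · rw [e3, e3, opAt_mul, ← map_mul]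
      simp [lt, opAt_one]
  let Θ := (Units.coeHom _).comp
    (FreeGroup.lift fun l => Units.mk _ _ (e4 l) (mul_eq_one_comm.1 (e4 l)))
  have hΘ : ∀ l, (md M).mapMatrix (uL (m := m) (l, true)) = Θ (FreeGroup.of l) := fun l => by
    simp [Θ]
  rw [← trace_track (rho M) Θ (fun i => by rw [← hΘ, e1]) (fun j => by rw [← hΘ, e3]; rfl) _ hW,
    hom_list Θ (fun l => (md M).mapMatrix (uL l)) hΘ e4,
    ← Function.comp_def (md M).mapMatrix uL, ← List.map_map, ← map_list_prod]
  simp [trace]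

theorem model (hk : 0 < k) (c : ℚ) (L : List ((Fin m ⊕ Fin k) × Bool))
    (hW : Function.Injective fun i : Fin (m + 1) =>
      ((track (L.map lt).prod ^ (i : ℕ)) (0, 1)).1)
    (hw : ∀ j, kill j ((track (L.map lt).prod ^ (m + 1)) (0, 1)).2 = 1)
    (h : coeff (cst k 2)
      (L.map fun l => Psi m c (uL (ν := Fin (k + 1)) l)).prod.trace = 0) (π : Perm (Fin k)) :
    milnor π ((track (L.map lt).prod ^ (m + 1)) (0, 1)).2 = 0 := by
  refine endgame hk c hw ?_ π
  simp only [← md_uL _ L hW]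
  rw [← average 2 le_rfl (fun α : Bool × Fin (k + 1) × Fin (k + 1) => sg α.1 / 4)
    (fun _ => fr c) (lcoeff ℚ (cst k 2) ∘ₗ traceLinearMap _ ℚ _ ∘ₗ (md1 c).toLinearMap)
    (fun _ u => (FreeMonoid.lift (xi c) u).trace) (md1_trace c) (fun _ => casimir c), ← h,
    ← Function.comp_def (Psi m c) uL, ← List.map_map, ← map_list_prod]
  generalize (L.map (uL (ν := Fin (k + 1)))).prod = Z
  simp only [LinearMap.comp_apply, AlgHom.toLinearMap_apply, traceLinearMap_apply, lcoeff_apply]
  congr 1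
  simp only [trace, diag, map_sum, Matrix.sum_apply, Psi_apply, Fintype.sum_prod_type]
  rw [Finset.sum_comm]

end Pool.Agent.Lib.MP_140c34_gt
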