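import Pool.Agent.Lib.MP_140c34_gt.Braid

/-! The braid invariants of the vector representation of quantum `gl N`. -/

namespace Pool.Agent.Lib.MP_140c34_gt

open Equiv Function

/-- Functions of states. -/
abbrev St : Type := (ℕ → ℕ) → ℝ

noncomputable instance decState : DecidableEq (ℕ → ℕ) := Classical.decEq _

/-- A local operator. -/
def Op (i : ℕ) (c : ℕ → ℕ → ℝ) : Module.End ℝ St where
  toFun F f := c (f i) (f (i + 1)) * F f + if f i = f (i + 1) then 0 else F (f ∘ swap i (i + 1))
  map_add' F G := by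
    funext f
    simp only [Pi.add_apply]
    split_ifs <;> ring
  map_smul' a F := by
    funext f
    simp only [Pi.smul_apply, smul_eq_mul, RingHom.id_apply]
    split_ifs <;> ring

theorem Op_apply (i : ℕ) (c : ℕ → ℕ → ℝ) (F : St) (f : ℕ → ℕ) : Op i c F f
    = c (f i) (f (i + 1)) * F f + if f i = f (i + 1) then 0 else F (f ∘ swap i (i + 1)) := rfl

/-- The diagonal part of the `R`-matrix. -/
noncomputable def cR (q : ℝ) (a b : ℕ) : ℝ := if a = b then q else if b < a then q - q⁻¹ else 0

theorem Op_sub (i : ℕ) (c : ℕ → ℕ → ℝ) (z : ℝ) :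
    Op i c - z • 1 = Op i fun a b => c a b - z := by
  ext F f
  simp [Op_apply]
  ring

theorem Op_sq {q : ℝ} (hq : q ≠ 0) (i : ℕ) :
    Op i (cR q) * Op i (cR q) = (q - q⁻¹) • Op i (cR q) + 1 := by
  ext F f
  have e : (f ∘ swap i (i + 1)) ∘ swap i (i + 1) = f := by
    funext x
    simp
  simp only [Module.End.mul_apply, Op_apply, LinearMap.add_apply, LinearMap.smul_apply,
    Pi.add_apply, Pi.smul_apply, Module.End.one_apply, comp_apply, swap_apply_left,
    swap_apply_right, e, smul_eq_mul, cR]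
  rcases lt_trichotomy (f i) (f (i + 1)) with h | h | h
  · simp [h, h.ne, h.ne', h.not_gt]
  · simp [h]
    field_simp
    ring
  · simp [h, h.ne, h.ne', h.not_gt]

theorem Op_comm {i j : ℕ} (h : i + 1 < j) (c : ℕ → ℕ → ℝ) : Op i c * Op j c = Op j c * Op i c := by
  ext F f
  have e : (f ∘ swap i (i + 1)) ∘ swap j (j + 1) = (f ∘ swap j (j + 1)) ∘ swap i (i + 1) := by
    funext x
    simp only [comp_apply, swap_apply_def]
    split_ifs <;> first | rfl | omega
  have a1 : swap i (i + 1) j = j := swap_apply_of_ne_of_ne (by omega) (by omega)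
  have a2 : swap i (i + 1) (j + 1) = j + 1 := swap_apply_of_ne_of_ne (by omega) (by omega)
  have a3 : swap j (j + 1) i = i := swap_apply_of_ne_of_ne (by omega) (by omega)
  have a4 : swap j (j + 1) (i + 1) = i + 1 := swap_apply_of_ne_of_ne (by omega) (by omega)
  simp only [Module.End.mul_apply, Op_apply, comp_apply, a1, a2, a3, a4, e]
  split_ifs <;> ring

theorem Op_braid {q : ℝ} (hq : q ≠ 0) (i : ℕ) :
    Op i (cR q) * Op (i + 1) (cR q) * Op i (cR q)
      = Op (i + 1) (cR q) * Op i (cR q) * Op (i + 1) (cR q) := by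
  ext F f
  obtain ⟨st, hst⟩ : ∃ st : ℕ → ℕ → ℕ → ℕ → ℕ, ∀ a b c x, st a b c x =
      if x = i then a else if x = i + 1 then b else if x = i + 2 then c else f x :=
    ⟨_, fun _ _ _ _ => rfl⟩
  have h1 : ∀ (G : St) a b c, Op i (cR q) G (st a b c)
      = cR q a b * G (st a b c) + if a = b then 0 else G (st b a c) := by
    intro G a b c
    have e : st a b c ∘ swap i (i + 1) = st b a c := by
      funext x
      simp only [comp_apply, swap_apply_def, hst]
      split_ifs <;> first | rfl | omega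
    rw [Op_apply, e]
    simp [hst]
  have h2 : ∀ (G : St) a b c, Op (i + 1) (cR q) G (st a b c)
      = cR q b c * G (st a b c) + if b = c then 0 else G (st a c b) := by
    intro G a b c
    have e : st a b c ∘ swap (i + 1) (i + 1 + 1) = st a c b := by
      funext x
      simp only [comp_apply, swap_apply_def, hst]
      split_ifs <;> first | rfl | omega
    rw [Op_apply, e]
    simp [hst, show i + 1 + 1 ≠ i by omega]
  have e : f = st (f i) (f (i + 1)) (f (i + 2)) := by
    funext x
    rw [hst]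
    split_ifs <;> simp_all
  rw [e]
  generalize f i = a
  generalize f (i + 1) = b
  generalize f (i + 2) = c
  simp only [Module.End.mul_apply, h1, h2, cR]
  rcases lt_trichotomy a b with h | rfl | h
  · rcases lt_trichotomy b c with h' | rfl | h'
    · have := h.trans h'
      simp [h.ne, h.not_gt, h'.ne, h'.not_gt, this.ne, this.not_gt]
    · simp [h, h.ne, h.ne', h.not_gt]
    · rcases lt_trichotomy a c with k | rfl | k
      · simp [h.ne, h.not_gt, h', h'.ne', k.ne, k.not_gt]
      · simp [h, h.ne, h.ne', h.not_gt]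
        ring
      · simp [h, h.ne, h.ne', h.not_gt, h', h'.ne, h'.ne', h'.not_gt, k, k.ne'] <;> ring
  · rcases lt_trichotomy a c with k | rfl | k
    · simp [k, k.ne, k.ne', k.not_gt] <;> ring
    · simp
    · simp [k, k.ne, k.ne', k.not_gt] <;> field_simp <;> ring
  · rcases lt_trichotomy b c with h' | rfl | h'
    · rcases lt_trichotomy a c with k | rfl | k
      · simp [h, h.ne, h.ne', h.not_gt, h', h'.ne, h'.ne', h'.not_gt, k.ne, k.not_gt] <;> ring
      · simp [h, h.ne, h.ne', h.not_gt] <;> ring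
      · simp [h, h.ne, h.ne', h.not_gt, h', h'.ne, h'.ne', h'.not_gt, k, k.ne', k.not_gt] <;> ring
    · simp [h, h.ne, h.ne', h.not_gt] <;> field_simp <;> ring
    · have k := h'.trans h
      simp [h, h.ne, h.ne', h.not_gt, h', h'.ne, h'.ne', h'.not_gt, k, k.ne', k.not_gt] <;> ring

/-- The representation of the braid group. -/
noncomputable def rep {q v : ℝ} (hq : q ≠ 0) (hv : v ≠ 0) : Br →* (Module.End ℝ St)ˣ :=
  PresentedGroup.toGroup (f := fun i => (⟨v • Op i (cR q), v⁻¹ • (Op i (cR q) - (q - q⁻¹) • 1),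
    by rw [smul_mul_smul_comm, mul_inv_cancel₀ hv]; simp [mul_sub, Op_sq hq],
    by rw [smul_mul_smul_comm, inv_mul_cancel₀ hv]; simp [sub_mul, Op_sq hq]⟩ :
      (Module.End ℝ St)ˣ)) (by
    rintro r (⟨i, rfl⟩ | ⟨i, j, h, rfl⟩)
    · simp only [map_mul, map_inv, FreeGroup.lift_apply_of, mul_inv_eq_one]
      ext1
      simp [Op_braid hq]
    · simp only [map_mul, map_inv, FreeGroup.lift_apply_of, mul_inv_eq_one]
      ext1
      simp [Op_comm h])

theorem rep_g {q v : ℝ} (hq : q ≠ 0) (hv : v ≠ 0) (i : ℕ) :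
    (rep hq hv (g i) : Module.End ℝ St) = v • Op i (cR q) := by
  rw [rep, g, PresentedGroup.toGroup.of]

theorem rep_g_inv {q v : ℝ} (hq : q ≠ 0) (hv : v ≠ 0) (i : ℕ) :
    (rep hq hv (g i)⁻¹ : Module.End ℝ St) = v⁻¹ • (Op i (cR q) - (q - q⁻¹) • 1) := by
  rw [map_inv, rep, g, PresentedGroup.toGroup.of]
  rfl

/-- States of `n` strands with `N` colours. -/
noncomputable def SS (N : ℕ) : ℕ → Finset (ℕ → ℕ)
  | 0 => {0}
  | n + 1 => (SS N n ×ˢ Finset.range N).image fun p => update p.1 n p.2

theorem mem_SS {N n : ℕ} {f : ℕ → ℕ} :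
    f ∈ SS N n ↔ (∀ i < n, f i < N) ∧ ∀ i, n ≤ i → f i = 0 := by
  induction n generalizing f with
  | zero => simp [SS, funext_iff]
  | succ n ih =>
    simp only [SS, Finset.mem_image, Finset.mem_product, ih, Finset.mem_range, Prod.exists]
    constructor
    · rintro ⟨f', b, ⟨⟨h1, h2⟩, hb⟩, rfl⟩
      refine ⟨fun i hi => ?_, fun i hi => by rw [update_of_ne (by omega), h2 i (by omega)]⟩
      by_cases e : i = n
      · simpa [e] using hb
      · rw [update_of_ne e]
        exact h1 i (by omega)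
    · rintro ⟨h1, h2⟩
      refine ⟨update f n 0, f n, ⟨⟨fun i hi => ?_, fun i hi => ?_⟩, h1 n (by omega)⟩, by simp⟩
      · rw [update_of_ne (by omega)]
        exact h1 i (by omega)
      · by_cases e : i = n
        · simp [e]
        · rw [update_of_ne e, h2 i (by omega)]

theorem upd_inj {N n : ℕ} {f f' : ℕ → ℕ} (hf : f ∈ SS N n) (hf' : f' ∈ SS N n) {b b' : ℕ}
    (h : update f n b = update f' n b') : f = f' ∧ b = b' := by
  refine ⟨funext fun i => ?_, by simpa using congrFun h n⟩
  by_cases e : i = n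
  · rw [e, (mem_SS.1 hf).2 n le_rfl, (mem_SS.1 hf').2 n le_rfl]
  · simpa [e] using congrFun h i

theorem sum_SS (N n : ℕ) (F : (ℕ → ℕ) → ℝ) :
    ∑ f ∈ SS N (n + 1), F f = ∑ f ∈ SS N n, ∑ b ∈ Finset.range N, F (update f n b) := by
  rw [SS, Finset.sum_image, Finset.sum_product]
  intro p hp p' hp' h
  have := upd_inj (Finset.mem_product.1 hp).1 (Finset.mem_product.1 hp').1 h
  exact Prod.ext this.1 this.2

/-- The weight of a state. -/
def wt (r : ℝ) (n : ℕ) (f : ℕ → ℕ) : ℝ := ∏ i ∈ Finset.range n, r ^ f i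

/-- Operators acting on the first `n` strands only. -/
def Loc (N : ℕ) (r : ℝ) (n : ℕ) (T : Module.End ℝ St) : Prop :=
  (∀ F, (∀ f ∈ SS N n, F f = 0) → ∀ f ∈ SS N n, T F f = 0) ∧
    (∀ F f, T (fun f => wt r n f * F f) f = wt r n f * T F f) ∧
    ∀ F f b, T (fun f => F (update f n b)) f = T F (update f n b)

variable {N n : ℕ} {r : ℝ}

theorem Loc.mul {T T' : Module.End ℝ St} (h : Loc N r n T) (h' : Loc N r n T') :
    Loc N r n (T * T') :=
  ⟨fun F hF => h.1 _ (h'.1 F hF), fun F f => by
    rw [Module.End.mul_apply, funext (h'.2.1 F), h.2.1, Module.End.mul_apply], fun F f b => by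
    rw [Module.End.mul_apply, funext fun f => h'.2.2 F f b, h.2.2, Module.End.mul_apply]⟩

theorem Loc.smul {T : Module.End ℝ St} (h : Loc N r n T) (a : ℝ) : Loc N r n (a • T) :=
  ⟨fun F hF f hf => by simp [h.1 F hF f hf], fun F f => by simp [h.2.1, mul_left_comm],
    fun F f b => by simp [h.2.2]⟩

theorem Loc.op {i : ℕ} (hi : i + 1 < n) (c : ℕ → ℕ → ℝ) : Loc N r n (Op i c) := by
  refine ⟨fun F hF f hf => ?_, fun F f => ?_, fun F f b => ?_⟩
  · have : f ∘ swap i (i + 1) ∈ SS N n := by
      rw [mem_SS] at hf ⊢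
      refine ⟨fun x hx => hf.1 _ ?_, fun x hx => hf.2 _ ?_⟩ <;>
      · rw [swap_apply_def]
        split_ifs <;> omega
    simp [Op_apply, hF f hf, hF _ this]
  · have : wt r n (f ∘ swap i (i + 1)) = wt r n f :=
      Perm.prod_comp (swap i (i + 1)) _ (fun x => r ^ f x) fun x hx => by
        simp only [Set.mem_setOf_eq, swap_apply_def] at hx
        simp only [Finset.coe_range, Set.mem_Iio]
        split_ifs at hx <;> omega
    simp only [Op_apply, this]
    split_ifs <;> ring
  · have : update f n b ∘ swap i (i + 1) = update (f ∘ swap i (i + 1)) n b := by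
      funext x
      simp only [comp_apply, update_apply, swap_apply_def]
      split_ifs <;> first | rfl | omega
    simp only [Op_apply, this, update_of_ne (by omega : i ≠ n), update_of_ne (by omega : i + 1 ≠ n)]

theorem rep_loc {q v : ℝ} (hq : q ≠ 0) (hv : v ≠ 0) {x : Br} (hx : x ∈ Bn n) :
    Loc N r n (rep hq hv x) := by
  induction hx using Subgroup.closure_induction'' with
  | mem x hx =>
    obtain ⟨i, hi, rfl⟩ := hx
    rw [rep_g]
    exact (Loc.op hi _).smul _
  | inv_mem x hx =>
    obtain ⟨i, hi, rfl⟩ := hx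
    rw [rep_g_inv, Op_sub]
    exact (Loc.op hi _).smul _
  | one => exact ⟨fun F hF => by simpa using hF, by simp, by simp⟩
  | mul x y _ _ h h' => rw [map_mul]; exact h.mul h'

theorem Loc.expand {T : Module.End ℝ St} (h : Loc N r n T) (F : St) {f : ℕ → ℕ}
    (hf : f ∈ SS N n) : T F f = ∑ f' ∈ SS N n, F f' * T (Pi.single f' 1) f := by
  have := h.1 (F - ∑ f' ∈ SS N n, F f' • Pi.single f' 1)
    (fun x hx => by simp [Finset.sum_apply, Pi.single_apply, hx]) f hf
  simpa [map_sum, Finset.sum_apply, sub_eq_zero] using this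

/-- The quantum trace. -/
noncomputable def qtr (N : ℕ) (r : ℝ) (n : ℕ) (T : Module.End ℝ St) : ℝ :=
  ∑ f ∈ SS N n, wt r n f * T (Pi.single f 1) f

theorem qtr_comm {T T' : Module.End ℝ St} (h : Loc N r n T) (h' : Loc N r n T') :
    qtr N r n (T * T') = qtr N r n (T' * T) := by
  have key : ∀ f f', wt r n f * T (Pi.single f' 1) f = wt r n f' * T (Pi.single f' 1) f := by
    intro f f'
    rw [← h.2.1, ← smul_eq_mul (wt r n f'), ← Pi.smul_apply, ← map_smul]
    refine congrFun (congrArg T (funext fun x => ?_)) f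
    by_cases e : x = f' <;> simp [e]
  simp only [qtr, Module.End.mul_apply]
  rw [Finset.sum_congr rfl fun f hf => by rw [h.expand _ hf, Finset.mul_sum],
    Finset.sum_congr (s₁ := SS N n) (f := fun f => wt r n f * T' _ f) rfl
      fun f hf => by rw [h'.expand _ hf, Finset.mul_sum], Finset.sum_comm]
  refine Finset.sum_congr rfl fun f _ => Finset.sum_congr rfl fun f' _ => ?_
  linear_combination T' (Pi.single f' 1) f * key f' f

theorem qtr_op {T : Module.End ℝ St} (h : Loc N r (n + 1) T) (c : ℕ → ℕ → ℝ) (α : ℝ)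
    (hc : ∀ a < N, ∑ b ∈ Finset.range N, r ^ b * c a b = α) :
    qtr N r (n + 2) (T * Op n c) = α * qtr N r (n + 1) T := by
  rw [qtr, qtr, sum_SS, Finset.mul_sum]
  refine Finset.sum_congr rfl fun f hf => ?_
  have e1 : ∀ b, wt r (n + 2) (update f (n + 1) b) = wt r (n + 1) f * r ^ b := fun b => by
    rw [wt, Finset.prod_range_succ, update_self]
    congr 1
    exact Finset.prod_congr rfl fun i hi => by
      rw [update_of_ne (Finset.mem_range.1 hi).ne]
  have e2 : ∀ f' ∈ SS N (n + 1), ∀ b, Op n c (Pi.single (update f (n + 1) b) 1)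
      (update f' (n + 1) b) = if f' = f then c (f n) b else 0 := by
    intro f' hf' b
    simp only [Op_apply, update_self, update_of_ne (by omega : n ≠ n + 1), Pi.single_apply]
    have k1 : update f' (n + 1) b = update f (n + 1) b ↔ f' = f :=
      ⟨fun e => (upd_inj hf' hf e).1, fun e => by rw [e]⟩
    have k2 : update f' (n + 1) b ∘ swap n (n + 1) = update f (n + 1) b → f' n = b :=
      fun e => by simpa using congrFun e (n + 1)
    split_ifs <;> simp_all
  simp only [Module.End.mul_apply, e1, ← h.2.2, h.expand (fun _ => Op n c _ _) hf]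
  rw [Finset.sum_congr rfl fun b _ => by rw [Finset.sum_congr rfl fun f' hf' => by rw [e2 f' hf']]]
  simp only [ite_mul, zero_mul, Finset.sum_ite_eq', hf, if_true]
  rw [← hc (f n) ((mem_SS.1 hf).1 n (by omega)), Finset.sum_mul]
  exact Finset.sum_congr rfl fun b _ => by ring

theorem sum_cR {q : ℝ} (hq : q ≠ 0) (N : ℕ) :
    (q - q⁻¹) * ∑ b ∈ Finset.range N, (q⁻¹ ^ 2) ^ b = q - q * (q⁻¹ ^ 2) ^ N := by
  induction N with
  | zero => simp
  | succ N ih =>
    rw [Finset.sum_range_succ, mul_add, ih, pow_succ _ N]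
    field_simp
    ring

theorem sum_cR' {q : ℝ} (hq : q ≠ 0) {a : ℕ} (ha : a < N) :
    ∑ b ∈ Finset.range N, (q⁻¹ ^ 2) ^ b * cR q a b = q := by
  rw [← Finset.sum_subset (Finset.range_mono (Nat.succ_le_of_lt ha)) fun b _ hb => by
    rw [Finset.mem_range] at hb
    rw [cR, if_neg (by omega), if_neg (by omega), mul_zero], Finset.sum_range_succ,
    Finset.sum_congr rfl (g := fun b => (q - q⁻¹) * (q⁻¹ ^ 2) ^ b) fun b hb => by
      rw [Finset.mem_range] at hb
      rw [cR, if_neg (by omega), if_pos hb, mul_comm], ← Finset.mul_sum, sum_cR hq, cR, if_pos rfl]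
  ring

end Pool.Agent.Lib.MP_140c34_gt
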