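import Pool.Agent.Lib.MP_140c34_gt.Defs

/-! Tensor products of matrices along a permutation; the trace of a mixed braid. -/

namespace Pool.Agent.Lib.MP_140c34_gt

open Matrix Equiv

set_option linter.unusedSectionVars false

variable {ι ν : Type} [Fintype ι] [DecidableEq ι] [Fintype ν] [DecidableEq ν]

/-- A matrix acting on the factor `p`. -/
def opAt {R : Type} [Zero R] (p : ι) (M : Matrix ν ν R) : Matrix (ι → ν) (ι → ν) R :=
  of fun f f' => if ∀ q, q ≠ p → f q = f' q then M (f p) (f' p) else 0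

/-- Permuting the factors. -/
def pmat (R : Type) [Zero R] [One R] (π : ι → ι) : Matrix (ι → ν) (ι → ν) R :=
  of fun f f' => if ∀ q, f (π q) = f' q then 1 else 0

variable {C : Type} [CommRing C]

/-- Tensor product followed by a permutation of the factors. -/
def tens (M : ι → Matrix ν ν C) (π : ι → ι) : Matrix (ι → ν) (ι → ν) C :=
  of fun f f' => ∏ p, M p (f (π p)) (f' p)

theorem tens_mul (M M' : ι → Matrix ν ν C) (π : ι → ι) {π' : ι → ι} (h : Function.Bijective π') :
    tens M π * tens M' π' = tens (fun p => M (π' p) * M' p) (fun p => π (π' p)) := by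
  ext f f'
  simp only [tens, mul_apply, of_apply]
  rw [Finset.prod_univ_sum, Fintype.piFinset_univ]
  refine Fintype.sum_equiv ((ofBijective π' h).symm.arrowCongr (Equiv.refl ν)) _ _ fun x => ?_
  rw [Finset.prod_mul_distrib, ← h.prod_comp]
  simp

theorem tens_pmat (π : ι → ι) : tens (fun _ => (1 : Matrix ν ν C)) π = pmat C π := by
  ext f f'
  simp [tens, pmat, one_apply, Finset.prod_ite_zero]

theorem pmat_id {R : Type} [Zero R] [One R] : pmat (ν := ν) R (fun q : ι => q) = 1 := by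
  ext f f'
  simp [pmat, one_apply, funext_iff]

theorem tens_opAt (p : ι) (M : Matrix ν ν C) :
    tens (Pi.mulSingle p M) (fun q => q) = opAt p M := by
  ext f f'
  simp only [tens, opAt, of_apply]
  rw [← Finset.mul_prod_erase _ _ (Finset.mem_univ p), Pi.mulSingle_eq_same,
    Finset.prod_congr rfl (g := fun q => if f q = f' q then 1 else 0)
      fun q hq => by rw [Pi.mulSingle_eq_of_ne (Finset.mem_erase.1 hq).1, one_apply]]
  simp [Finset.prod_ite_zero]

theorem trace_tens (M : ι → Matrix ν ν C) : (tens M (fun q => q)).trace = ∏ p, (M p).trace := by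
  simp only [trace, diag, tens, of_apply]
  rw [Finset.prod_univ_sum, Fintype.piFinset_univ]

variable {F : Type} [Group F]

/-- Permutations commuting with right multiplication. -/
def Eqv (θ : Perm (ι × F)) : Prop := ∀ p u v, θ (p, u * v) = ((θ (p, u)).1, (θ (p, u)).2 * v)

omit [Fintype ι] [DecidableEq ι] in
theorem Eqv.mul {θ θ' : Perm (ι × F)} (h : Eqv θ) (h' : Eqv θ') : Eqv (θ * θ') := by
  intro p u v
  rw [Perm.mul_apply, h', h, Perm.mul_apply]

omit [Fintype ι] [DecidableEq ι] in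
theorem Eqv.inv {θ : Perm (ι × F)} (h : Eqv θ) : Eqv θ⁻¹ := by
  intro p u v
  rw [Perm.inv_eq_iff_eq, h]
  simp

omit [DecidableEq ι] in
theorem Eqv.bij {θ : Perm (ι × F)} (h : Eqv θ) : Function.Bijective fun p => (θ (p, 1)).1 := by
  refine Finite.injective_iff_bijective.1 fun p q e => ?_
  have h1 := h p 1 (θ (p, 1)).2⁻¹
  have h2 := h q 1 (θ (q, 1)).2⁻¹
  simp only [mul_inv_cancel] at h1 h2 e
  rw [e, ← h2] at h1
  exact (Prod.ext_iff.1 (θ.injective h1)).1

/-- The matrix of an equivariant permutation. -/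
def TT (ρ : F →* Matrix ν ν C) (θ : Perm (ι × F)) : Matrix (ι → ν) (ι → ν) C :=
  tens (fun p => ρ (θ (p, 1)).2) fun p => (θ (p, 1)).1

theorem TT_mul (ρ : F →* Matrix ν ν C) {θ θ' : Perm (ι × F)} (h : Eqv θ) (h' : Eqv θ') :
    TT ρ (θ * θ') = TT ρ θ * TT ρ θ' := by
  have e : ∀ p, (θ * θ') (p, 1) = ((θ ((θ' (p, 1)).1, 1)).1,
      (θ ((θ' (p, 1)).1, 1)).2 * (θ' (p, 1)).2) := fun p => by
    rw [← h, one_mul, Perm.mul_apply]
  simp only [TT, tens_mul _ _ _ h'.bij, e, map_mul]

theorem TT_one (ρ : F →* Matrix ν ν C) : TT ρ (1 : Perm (ι × F)) = 1 := by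
  simp [TT, tens_pmat, pmat_id]

variable {m k : ℕ}

theorem track_eqv (W : FreeGroup (Fin m ⊕ Fin k)) : Eqv (track W) := by
  induction W using FreeGroup.induction_on with
  | C1 => intro p u v; simp
  | of l =>
    intro p u v
    rcases l with i | j
    · simp [track]
    · by_cases h : p = Fin.last m <;> simp [track, h, mul_assoc, Perm.prodExtendRight_apply_ne]
  | inv_of l h => rw [map_inv]; exact h.inv
  | mul x y h h' => rw [map_mul]; exact h.mul h'

theorem trace_cycle (ρ : F →* Matrix ν ν C) {θ : Perm (Fin (m + 1) × F)} (h : Eqv θ)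
    (hW : Function.Injective fun i : Fin (m + 1) => ((θ ^ (i : ℕ)) (0, 1)).1) :
    (TT ρ θ).trace = (ρ ((θ ^ (m + 1)) (0, 1)).2).trace := by
  obtain ⟨e, he⟩ : ∃ e : Perm (Fin (m + 1)), ∀ i, e i = ((θ ^ (i : ℕ)) (0, 1)).1 :=
    ⟨ofBijective _ (Finite.injective_iff_bijective.1 hW), fun _ => rfl⟩
  obtain ⟨D, hD⟩ : ∃ D : Perm (Fin (m + 1) × F), ∀ i x,
      D (e i, x) = (e i, ((θ ^ (i : ℕ)) (0, 1)).2 * x) :=
    ⟨prodCongrRight fun p => Equiv.mulLeft ((θ ^ (e.symm p : ℕ)) (0, 1)).2, fun i x => by simp⟩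
  have hDe : Eqv D := by
    intro p u v
    obtain ⟨i, rfl⟩ := e.surjective p
    simp [hD, mul_assoc]
  have hD1 : ∀ i, D (e i, 1) = (θ ^ (i : ℕ)) (0, 1) := fun i => by rw [hD, mul_one, he]
  obtain ⟨η, hη⟩ : ∃ η, η = D⁻¹ * θ * D := ⟨_, rfl⟩
  have hηe : Eqv η := hη ▸ (hDe.inv.mul h).mul hDe
  have h1 : ∀ i, D (η (e i, 1)) = (θ ^ ((i : ℕ) + 1)) (0, 1) := fun i => by
    simp [hη, hD1, pow_succ']
  have h2 : ∀ i : Fin m, η (e i.castSucc, 1) = (e i.succ, 1) := fun i =>
    D.injective (by rw [h1, hD1]; rfl)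
  have h3 : (η (e (Fin.last m), 1)).1 = e 0 := by
    obtain ⟨r, hr⟩ := e.surjective (η (e (Fin.last m), 1)).1
    rcases Fin.eq_zero_or_eq_succ r with rfl | ⟨i, rfl⟩
    · exact hr.symm
    · have := hηe.bij.1 (a₁ := e i.castSucc) (a₂ := e (Fin.last m)) (by simp only [h2, hr])
      exact absurd (e.injective this) (Fin.castSucc_lt_last i).ne
  have h4 : (η (e (Fin.last m), 1)).2 = ((θ ^ (m + 1)) (0, 1)).2 := by
    have := h1 (Fin.last m)
    rw [← Prod.mk.eta (p := η _), h3, hD] at this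
    simpa using congrArg Prod.snd this
  have h5 : (TT ρ θ).trace = (TT ρ η).trace := by
    rw [hη, TT_mul ρ (hDe.inv.mul h) hDe, TT_mul ρ hDe.inv h, trace_mul_cycle,
      ← TT_mul ρ hDe hDe.inv, mul_inv_cancel, TT_one, one_mul]
  have h6 : ∀ f, TT ρ η f f = (∏ i : Fin m, if f (e i.succ) = f (e i.castSucc) then 1 else 0) *
      ρ ((θ ^ (m + 1)) (0, 1)).2 (f (e 0)) (f (e (Fin.last m))) := fun f => by
    simp only [TT, tens, of_apply]
    rw [← Equiv.prod_comp e, Fin.prod_univ_castSucc]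
    simp only [h2, h3, h4, map_one, one_apply]
  rw [h5]
  refine (Fintype.sum_of_injective (fun (a : ν) (_ : Fin (m + 1)) => a)
    (fun a b hab => congrFun hab 0) _ _ (fun f hf => ?_) fun a => by simp [h6]).symm
  rw [diag, h6]
  by_contra hne
  have hall : ∀ i : Fin m, f (e i.succ) = f (e i.castSucc) := fun i => by
    by_contra hi
    exact hne (by rw [Finset.prod_eq_zero (Finset.mem_univ i) (if_neg hi), zero_mul])
  refine hf ⟨f (e 0), funext fun p => ?_⟩
  obtain ⟨i, rfl⟩ := e.surjective p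
  induction i using Fin.induction with
  | zero => rfl
  | succ i ih => rw [hall, ← ih]

theorem trace_track (ρ : FreeGroup (Fin k) →* Matrix ν ν C)
    (Θ : FreeGroup (Fin m ⊕ Fin k) →* Matrix (Fin (m + 1) → ν) (Fin (m + 1) → ν) C)
    (h1 : ∀ i, Θ (FreeGroup.of (Sum.inl i)) = pmat C (swap i.castSucc i.succ))
    (h2 : ∀ j, Θ (FreeGroup.of (Sum.inr j)) = opAt (Fin.last m) (ρ (FreeGroup.of j)))
    (W : FreeGroup (Fin m ⊕ Fin k))
    (hW : Function.Injective fun i : Fin (m + 1) => ((track W ^ (i : ℕ)) (0, 1)).1) :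
    (Θ W).trace = (ρ ((track W ^ (m + 1)) (0, 1)).2).trace := by
  rw [← trace_cycle ρ (track_eqv W) hW]
  congr 1
  clear hW
  induction W using FreeGroup.induction_on with
  | C1 => rw [map_one, map_one, TT_one]
  | of l =>
    rcases l with i | j
    · simp [h1, TT, track, tens_pmat]
    · rw [h2, ← tens_opAt, TT]
      congr 1 <;> funext p <;> by_cases h : p = Fin.last m <;>
        simp [track, h, Perm.prodExtendRight_apply_ne]
  | inv_of l h =>
    refine left_inv_eq_right_inv (a := Θ (FreeGroup.of l)) (by rw [← map_mul]; simp) ?_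
    rw [h, ← TT_mul ρ (track_eqv _) (track_eqv _), ← map_mul]
    simp [TT_one]
  | mul x y h h' => rw [map_mul, map_mul, TT_mul ρ (track_eqv _) (track_eqv _), h, h']

end Pool.Agent.Lib.MP_140c34_gt
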