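import Pool.Agent.Lib.MP_140c34_gt.Expand
import Pool.Agent.Lib.MP_140c34_gt.Defs

/-! Truncated polynomials and the sum of squares. -/

namespace Pool.Agent.Lib.MP_140c34_gt

open MvPolynomial Matrix

variable {k : ℕ}

/-- Polynomials with no monomial of degree at most two in every variable. -/
def box (k : ℕ) : Ideal (MvPolynomial (Fin k) ℚ) where
  carrier := {f | ∀ d : Fin k →₀ ℕ, (∀ j, d j ≤ 2) → coeff d f = 0}
  add_mem' := fun ha hb d hd => by rw [coeff_add, ha d hd, hb d hd, add_zero]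
  zero_mem' := fun _ _ => rfl
  smul_mem' := fun c f hf d hd => by
    classical
    rw [smul_eq_mul, coeff_mul]
    refine Finset.sum_eq_zero fun x hx => ?_
    rw [hf x.2 fun j => ?_, mul_zero]
    have := congrArg (fun e => e j) (Finset.HasAntidiagonal.mem_antidiagonal.1 hx)
    have h2 := hd j
    simp only [Finsupp.add_apply] at this
    omega

/-- Truncated polynomials. -/
def Cb (k : ℕ) : Type := MvPolynomial (Fin k) ℚ ⧸ box k

noncomputable instance : CommRing (Cb k) :=
  inferInstanceAs (CommRing (MvPolynomial (Fin k) ℚ ⧸ box k))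

noncomputable instance : Algebra ℚ (Cb k) :=
  inferInstanceAs (Algebra ℚ (MvPolynomial (Fin k) ℚ ⧸ box k))

/-- The truncation. -/
noncomputable def mkC : MvPolynomial (Fin k) ℚ →ₐ[ℚ] Cb k := Ideal.Quotient.mkₐ ℚ (box k)

theorem mkC_surj : Function.Surjective (mkC (k := k)) := Ideal.Quotient.mk_surjective

theorem mkC_zero {f : MvPolynomial (Fin k) ℚ} :
    mkC f = 0 ↔ ∀ d : Fin k →₀ ℕ, (∀ j, d j ≤ 2) → coeff d f = 0 :=
  Ideal.Quotient.eq_zero_iff_mem (I := box k)

/-- The coefficient of `(y 0 ⋯ y (k - 1)) ^ e`. -/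
noncomputable def cf (e : ℕ) (he : e ≤ 2) : Cb k →ₗ[ℚ] ℚ :=
  ((box k).restrictScalars ℚ).liftQ (lcoeff ℚ (cst k e)) (fun _ hf => hf _ fun _ => he) ∘ₗ
    (Submodule.Quotient.restrictScalarsEquiv ℚ (box k)).symm.toLinearMap

theorem cf_mk (e : ℕ) (he : e ≤ 2) (f : MvPolynomial (Fin k) ℚ) :
    cf e he (mkC f) = coeff (cst k e) f := rfl

/-- Rescaling the variables. -/
noncomputable def sc (μ : Fin k → ℚ) : Cb k →ₐ[ℚ] Cb k :=
  Ideal.Quotient.liftₐ (box k) (mkC.comp (scale μ)) fun f hf =>
    mkC_zero.2 fun d hd => (coeff_scale μ d f).trans (by rw [hf d hd, mul_zero])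

theorem sc_mk (μ : Fin k → ℚ) (f : MvPolynomial (Fin k) ℚ) : sc μ (mkC f) = mkC (scale μ f) := rfl

theorem cf_sc (e : ℕ) (he : e ≤ 2) (μ : Fin k → ℚ) (x : Cb k) :
    cf e he (sc μ x) = (∏ j, μ j ^ e) * cf e he x := by
  obtain ⟨f, rfl⟩ := mkC_surj x
  simp [sc_mk, cf_mk, coeff_scale]

theorem cf_one (hk : 0 < k) (e : ℕ) (he : e ≤ 2) (h0 : 0 < e) : cf e he (1 : Cb k) = 0 := by
  classical
  rw [← map_one mkC, cf_mk, coeff_one, if_neg]
  intro h
  have := congrArg (fun d => d ⟨0, hk⟩) h
  simp at this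
  omega

theorem cf_mul {x x' : Cb k} (h : ∀ j, sc (Function.update 1 j 0) x = 0)
    (h' : ∀ j, sc (Function.update 1 j 0) x' = 0) :
    cf 2 le_rfl (x * x') = cf 1 one_le_two x * cf 1 one_le_two x' := by
  classical
  obtain ⟨f, rfl⟩ := mkC_surj x
  obtain ⟨f', rfl⟩ := mkC_surj x'
  have key : ∀ f : MvPolynomial (Fin k) ℚ,
      (∀ j, sc (Function.update 1 j 0) (mkC f) = 0) →
      ∀ d : Fin k →₀ ℕ, (∀ j, d j ≤ 2) → ∀ j, d j = 0 → coeff d f = 0 := by
    intro f hf d hd j hj
    have := mkC_zero.1 ((sc_mk _ f).symm.trans (hf j)) d hd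
    rw [coeff_scale, Finset.prod_eq_one, one_mul] at this
    · exact this
    · intro l _
      by_cases hl : l = j <;> simp [hl, hj]
  rw [← map_mul, cf_mk, cf_mk, cf_mk, coeff_mul, Finset.sum_eq_single (cst k 1, cst k 1)]
  · intro x hx hne
    have hs : ∀ j, x.1 j + x.2 j = 2 := fun j =>
      congrArg (fun e => e j) (Finset.HasAntidiagonal.mem_antidiagonal.1 hx)
    by_contra hc
    have h1 : ∀ j, x.1 j ≠ 0 := fun j hj =>
      hc (by rw [key f h x.1 (fun l => by have := hs l; omega) j hj, zero_mul])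
    have h2 : ∀ j, x.2 j ≠ 0 := fun j hj =>
      hc (by rw [key f' h' x.2 (fun l => by have := hs l; omega) j hj, mul_zero])
    refine hne (Prod.ext (Finsupp.ext fun j => ?_) (Finsupp.ext fun j => ?_)) <;>
    · have := hs j
      have := h1 j
      have := h2 j
      simp only [cst_apply]
      omega
  · intro hx
    refine absurd (Finset.HasAntidiagonal.mem_antidiagonal.2 (Finsupp.ext fun j => ?_)) hx
    simp

/-- The variables. -/
noncomputable def yy (j : Fin k) : Cb k := mkC (X j)

theorem yy_four (j : Fin k) : yy j * yy j * (yy j * yy j) = 0 := by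
  classical
  have : yy j * yy j * (yy j * yy j) = mkC (X j ^ 4) := by
    rw [map_pow, yy]; ring
  rw [this, mkC_zero]
  intro d hd
  rw [X_pow_eq_monomial, coeff_monomial, if_neg]
  rintro rfl
  simpa using hd j

theorem sc_yy (μ : Fin k → ℚ) (j : Fin k) : sc μ (yy j) = algebraMap ℚ _ (μ j) * yy j := by
  rw [yy, sc_mk, scale_X, map_mul, ← algebraMap_eq, AlgHom.commutes]

/-- The exponential up to order two. -/
noncomputable def ex {R : Type} [Ring R] [Algebra ℚ R] (x : R) : R := 1 + x + (1 / 2 : ℚ) • (x * x)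

theorem ex_mul {R : Type} [Ring R] [Algebra ℚ R] {x : R} (h : x * x * (x * x) = 0) :
    ex x * ex (-x) = 1 := by
  simp only [ex, mul_add, add_mul, mul_neg, neg_mul, neg_neg, one_mul, mul_one, smul_mul_assoc,
    mul_smul_comm, h, smul_zero, mul_assoc x x x]
  module

theorem map_ex {R R' : Type} [Ring R] [Algebra ℚ R] [Ring R'] [Algebra ℚ R'] (f : R →ₐ[ℚ] R')
    (x : R) : f (ex x) = ex (f x) := by simp [ex]

variable {ν : Type} [Fintype ν] [DecidableEq ν]

/-- The matrix `y j • M`. -/
noncomputable def yM (j : Fin k) (M : Matrix ν ν ℚ) : Matrix ν ν (Cb k) :=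
  yy j • M.map (algebraMap ℚ (Cb k))

theorem yM_four (j : Fin k) (M : Matrix ν ν ℚ) : yM j M * yM j M * (yM j M * yM j M) = 0 := by
  simp only [yM, smul_mul_assoc, mul_smul_comm, smul_smul]
  rw [yy_four, zero_smul]

/-- The representation `x j ↦ exp (y j • M j)`. -/
noncomputable def rho (M : Fin k → Matrix ν ν ℚ) : FreeGroup (Fin k) →* Matrix ν ν (Cb k) :=
  (Units.coeHom _).comp (FreeGroup.lift fun j => ⟨ex (yM j (M j)), ex (-yM j (M j)),
    ex_mul (yM_four _ _), by simpa using ex_mul (x := -yM j (M j)) (by simpa using yM_four _ _)⟩)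

theorem rho_of (M : Fin k → Matrix ν ν ℚ) (j : Fin k) :
    rho M (FreeGroup.of j) = ex (yM j (M j)) := by simp [rho]

theorem rho_inv (M : Fin k → Matrix ν ν ℚ) (j : Fin k) :
    rho M (FreeGroup.of j)⁻¹ = ex (-yM j (M j)) := by simp [rho]

theorem sc_rho (μ : Fin k → ℚ) (M : Fin k → Matrix ν ν ℚ) (w : FreeGroup (Fin k)) (a b : ν) :
    sc μ (rho M w a b) = rho (fun j => μ j • M j) w a b := by
  have : ((sc μ).mapMatrix (m := ν)).toMonoidHom.comp (rho M) = rho fun j => μ j • M j := by
    ext1 j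
    rw [MonoidHom.comp_apply, rho_of, rho_of]
    refine (map_ex ((sc μ).mapMatrix (m := ν)) _).trans ?_
    congr 1
    ext a b
    simp [yM, sc_yy, mul_left_comm, mul_assoc]
  rw [← this]
  rfl

/-- Erasing one generator. -/
def kill (j : Fin k) : FreeGroup (Fin k) →* FreeGroup (Fin k) :=
  FreeGroup.lift fun l => if l = j then 1 else FreeGroup.of l

theorem sc_kill (M : Fin k → Matrix ν ν ℚ) {w : FreeGroup (Fin k)} {j : Fin k} (h : kill j w = 1)
    (a b : ν) : sc (Function.update 1 j 0) ((rho M w - 1) a b) = 0 := by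
  have : (rho fun l => Function.update (1 : Fin k → ℚ) j 0 l • M l) = (rho M).comp (kill j) := by
    ext1 l
    by_cases hl : l = j
    · simp [rho_of, kill, hl, yM, ex]
    · simp [rho_of, kill, hl]
  rw [Matrix.sub_apply, map_sub, sc_rho, this, MonoidHom.comp_apply, h, map_one, one_apply]
  split_ifs <;> simp

theorem rho_transpose (M : Fin k → Matrix ν ν ℚ) (w : FreeGroup (Fin k)) :
    (rho M w⁻¹)ᵀ = rho (fun j => -(M j)ᵀ) w := by
  let f : FreeGroup (Fin k) →* Matrix ν ν (Cb k) :=
    { toFun := fun w => (rho M w⁻¹)ᵀ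
      map_one' := by simp
      map_mul' := fun x y => by rw [_root_.mul_inv_rev, map_mul, transpose_mul] }
  have : f = rho fun j => -(M j)ᵀ := by
    ext1 j
    have e : yM j (-(M j)ᵀ) = (-yM j (M j))ᵀ := by
      ext a b
      simp [yM]
    change (rho M (FreeGroup.of j)⁻¹)ᵀ = _
    rw [rho_inv, rho_of, e]
    simp only [ex, transpose_add, transpose_one, transpose_smul, transpose_mul]
  rw [← this]
  rfl

theorem squares (hk : 0 < k) (M : Fin k → Matrix ν ν ℚ) (ε : Fin k → ℚ) (hε : ∀ j, ε j ^ 2 = 1)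
    (hM : ∀ j, (M j)ᵀ = ε j • M j) {w : FreeGroup (Fin k)} (hw : ∀ j, kill j w = 1) :
    2 * cf 2 le_rfl (rho M w).trace
      = -(∏ j, -ε j) * ∑ a, ∑ b, cf 1 one_le_two (rho M w a b) ^ 2 := by
  have hT : ∀ a b, rho M w⁻¹ b a = sc (fun j => -ε j) (rho M w a b) := fun a b => by
    rw [sc_rho, ← transpose_apply (rho M w⁻¹), rho_transpose]
    simp only [hM, neg_smul]
  have h1 : ∀ (e : ℕ) (he : e ≤ 2), 0 < e → ∀ (Y : Matrix ν ν (Cb k)) a b,
      cf e he ((Y - 1) a b) = cf e he (Y a b) := by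
    intro e he h0 Y a b
    rw [Matrix.sub_apply, map_sub, one_apply]
    split_ifs <;> simp [cf_one hk e he h0]
  have h2 : (rho M w - 1) + (rho M w⁻¹ - 1) + (rho M w - 1) * (rho M w⁻¹ - 1) = 0 := by
    rw [sub_mul, mul_sub, ← map_mul, mul_inv_cancel, map_one]
    simp
  have h3 := congrArg (fun Y => cf 2 le_rfl (trace Y)) h2
  simp only [trace, diag, Matrix.add_apply, mul_apply, map_sum, map_add, Matrix.zero_apply, map_zero,
    cf_mul (fun j => sc_kill M (hw j) _ _) (fun j => sc_kill M (w := w⁻¹) (by simp [hw j]) _ _),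
    h1 2 le_rfl two_pos, h1 1 one_le_two one_pos, hT, cf_sc, neg_sq, hε, Finset.prod_const_one,
    one_mul, pow_one, Finset.sum_add_distrib, Finset.sum_const_zero] at h3
  rw [neg_mul, eq_neg_iff_add_eq_zero, ← h3, two_mul]
  simp only [trace, diag, map_sum, Finset.mul_sum]
  congr 1
  exact Finset.sum_congr rfl fun a _ => Finset.sum_congr rfl fun b _ => by ring

theorem cf_milnor (π : Equiv.Perm (Fin k)) (w : FreeGroup (Fin k)) :
    cf 1 one_le_two (rho (fun j => single (π j).castSucc (π j).succ 1) w 0 (Fin.last k))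
      = milnor π w := by
  classical
  let d : Fin (k + 1) → Cb k := fun a => ∏ j, if (π j).castSucc < a then yy j else 1
  let U : FreeGroup (Fin k) →* Matrix (Fin (k + 1)) (Fin (k + 1)) (Cb k) :=
    ((Int.castRingHom (Cb k)).mapMatrix.toMonoidHom.comp (Units.coeHom _)).comp
      (FreeGroup.lift fun j => elem (π j))
  have hd : ∀ j, d (π j).castSucc * yy j = d (π j).succ := by
    intro j
    simp only [d]
    rw [← Finset.mul_prod_erase _ _ (Finset.mem_univ j),
      ← Finset.mul_prod_erase _ _ (Finset.mem_univ j), if_neg (lt_irrefl _),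
      if_pos (π j).castSucc_lt_succ, one_mul, mul_comm]
    congr 1
    refine Finset.prod_congr rfl fun l hl => if_congr ?_ rfl rfl
    have : (π l : ℕ) ≠ π j := fun e => (Finset.mem_erase.1 hl).1 (π.injective (Fin.ext e))
    simp only [Fin.lt_def, Fin.val_castSucc, Fin.val_succ]
    omega
  have key : diagonal d * rho (fun j => single (π j).castSucc (π j).succ 1) w
      = U w * diagonal d := by
    induction w using FreeGroup.induction_on with
    | C1 => simp
    | of j =>
      have e : yM j (single (π j).castSucc (π j).succ (1 : ℚ))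
          = single (π j).castSucc (π j).succ (yy j) := by
        ext a b
        simp only [yM, single_apply, Matrix.smul_apply, map_apply]
        split_ifs <;> simp
      have e' : U (FreeGroup.of j) = 1 + single (π j).castSucc (π j).succ 1 := by
        ext a b
        simp [U, elem, one_apply, single_apply]
      rw [rho_of, e, e', ex, single_mul_single_of_ne _ _ _ _ (π j).castSucc_lt_succ.ne',
        smul_zero, add_zero, mul_add, add_mul, mul_one, one_mul]
      congr 1
      ext a b
      simp only [diagonal_mul, mul_diagonal, single_apply]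
      split_ifs with h
      · rw [← h.1, ← h.2, hd, one_mul]
      · simp
    | inv_of j h =>
      rw [← one_mul (diagonal d * _), ← map_one U, ← inv_mul_cancel (FreeGroup.of j), map_mul,
        mul_assoc, ← mul_assoc (U (FreeGroup.of j)), ← h, mul_assoc, ← map_mul, mul_inv_cancel,
        map_one, mul_one]
    | mul x y h h' => rw [map_mul, map_mul, ← mul_assoc, h, mul_assoc, h', mul_assoc]
  have h := congrFun (congrFun key 0) (Fin.last k)
  rw [diagonal_mul, mul_diagonal] at h
  have e0 : d 0 = 1 := by simp [d]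
  have e1 : d (Fin.last k) = mkC (monomial (cst k 1) 1) := by
    simp [d, Fin.castSucc_lt_last, monomial_eq, Finsupp.prod_fintype, yy]
  have e2 : U w 0 (Fin.last k) = (milnor π w : Cb k) := rfl
  rw [e0, one_mul, e1, e2] at h
  rw [h, ← zsmul_eq_mul, map_zsmul, cf_mk]
  simp

end Pool.Agent.Lib.MP_140c34_gt
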