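import Pool.Agent.Lib.MP_140c34_gt.Trunc
import Pool.Agent.Lib.MP_140c34_gt.Tens

/-! Universal words, averaging over an orthogonal frame, and the endgame. -/

namespace Pool.Agent.Lib.MP_140c34_gt

open MvPolynomial Matrix

variable {k : ℕ} {ν : Type} [Fintype ν] [DecidableEq ν]

/-- One free monoid of matrix positions for each straight strand. -/
abbrev Uw (k : ℕ) (ν : Type) : Type := Fin k → FreeMonoid (ν × ν)

/-- The universal algebra. -/
abbrev Un (k : ℕ) (ν : Type) : Type := MonoidAlgebra ℚ (Uw k ν)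

/-- The universal matrix of the strand `j`. -/
noncomputable def uX (j : Fin k) : Matrix ν ν (Un k ν) :=
  of fun a b => MonoidAlgebra.single (Pi.mulSingle j (FreeMonoid.of (a, b))) 1

/-- The product of the entries along a word. -/
def wd (M : Matrix ν ν ℚ) : FreeMonoid (ν × ν) →* ℚ := FreeMonoid.lift fun ab => M ab.1 ab.2

theorem lift_smul {B R α : Type} [CommRing B] [Ring R] [Algebra B R] (y : B) (f : α → R)
    (u : FreeMonoid α) :
    FreeMonoid.lift (fun a => y • f a) u = y ^ u.length • FreeMonoid.lift f u := by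
  induction u using FreeMonoid.inductionOn' with
  | one => simp
  | of_mul a u ih => simp [ih, FreeMonoid.length_mul, smul_smul, pow_add, mul_comm]

/-- The scalar model. -/
noncomputable def md (M : Fin k → Matrix ν ν ℚ) : Un k ν →ₐ[ℚ] Cb k :=
  mkC.comp (MonoidAlgebra.lift ℚ _ _
    { toFun := fun u => ∏ j, X j ^ (u j).length * C (wd (M j) (u j))
      map_one' := by simp
      map_mul' := fun u u' => by
        rw [← Finset.prod_mul_distrib]
        refine Finset.prod_congr rfl fun j _ => ?_
        rw [Pi.mul_apply, FreeMonoid.length_mul, map_mul, map_mul]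
        ring })

theorem coeff_prod (e : ℕ) (l : Fin k → ℕ) (c : Fin k → ℚ) :
    coeff (cst k e) (∏ j, X j ^ l j * C (c j) : MvPolynomial (Fin k) ℚ)
      = if ∀ j, l j = e then ∏ j, c j else 0 := by
  classical
  have : (∏ j, X j ^ l j * C (c j) : MvPolynomial (Fin k) ℚ)
      = monomial (Finsupp.equivFunOnFinite.symm l) (∏ j, c j) := by
    rw [monomial_eq, Finsupp.prod_fintype _ _ (by simp), Finset.prod_mul_distrib, map_prod,
      mul_comm]
    rfl
  rw [this, coeff_monomial]
  refine if_congr ?_ rfl rfl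
  simp [Finsupp.ext_iff]

omit [Fintype ν] [DecidableEq ν] in
theorem cf_md (e : ℕ) (he : e ≤ 2) (M : Fin k → Matrix ν ν ℚ) (u : Uw k ν) :
    cf e he (md M (MonoidAlgebra.single u 1))
      = if ∀ j, (u j).length = e then ∏ j, wd (M j) (u j) else 0 := by
  simp only [md, AlgHom.comp_apply, MonoidAlgebra.lift_single,
    one_smul, MonoidHom.coe_mk, OneHom.coe_mk, cf_mk, coeff_prod]

theorem md_uX (M : Fin k → Matrix ν ν ℚ) (j : Fin k) :
    (md M).mapMatrix (uX j) = yM j (M j) := by
  ext a b
  simp only [AlgHom.mapMatrix_apply, map_apply, uX, of_apply, md, AlgHom.comp_apply,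
    MonoidAlgebra.lift_single, one_smul, MonoidHom.coe_mk, OneHom.coe_mk]
  rw [Finset.prod_eq_single j (fun l _ hl => by simp [hl]) (by simp)]
  simp [yM, yy, wd, ← algebraMap_eq]

omit [Fintype ν] [DecidableEq ν] in
theorem average {𝒜 : Type} [Fintype 𝒜] (e : ℕ) (he : e ≤ 2) (wt : 𝒜 → ℚ)
    (T : Fin k → 𝒜 → Matrix ν ν ℚ) (Φ : Un k ν →ₗ[ℚ] ℚ) (φ : Fin k → FreeMonoid (ν × ν) → ℚ)
    (hΦ : ∀ u, Φ (MonoidAlgebra.single u 1)
      = if ∀ j, (u j).length = e then ∏ j, φ j (u j) else 0)
    (hφ : ∀ j u, u.length = e → φ j u = ∑ α, wt α * wd (T j α) u) (z : Un k ν) :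
    Φ z = ∑ α : Fin k → 𝒜, (∏ j, wt (α j)) * cf e he (md (fun j => T j (α j)) z) := by
  induction z using MonoidAlgebra.induction_on with
  | of u =>
    simp only [MonoidAlgebra.of_apply, hΦ, cf_md]
    split_ifs with h
    · simp only [fun j => hφ j _ (h j), ← Finset.prod_mul_distrib]
      rw [Finset.prod_univ_sum, Fintype.piFinset_univ]
    · simp
  | add x y hx hy => simp only [map_add, hx, hy, mul_add, Finset.sum_add_distrib]
  | smul r x hx =>
    simp only [map_smul, hx, smul_eq_mul, Finset.mul_sum]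
    exact Finset.sum_congr rfl fun _ _ => by ring

/-- The traceless elementary matrices. -/
def xi (c : ℚ) (ab : ν × ν) : Matrix ν ν ℚ :=
  single ab.2 ab.1 1 - if ab.1 = ab.2 then c • 1 else 0

/-- The sign of a frame element. -/
def sg (b : Bool) : ℚ := cond b 1 (-1)

/-- Symmetric and antisymmetric traceless matrices. -/
def fr (c : ℚ) (α : Bool × ν × ν) : Matrix ν ν ℚ :=
  of fun a b => xi c (a, b) α.2.2 α.2.1 + sg α.1 * xi c (a, b) α.2.1 α.2.2

omit [Fintype ν] in
theorem xi_symm (c : ℚ) (a b p q : ν) : xi c (a, b) p q = xi c (b, a) q p := by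
  simp only [xi, Matrix.sub_apply, single_apply]
  congr 1
  · exact if_congr and_comm rfl rfl
  · by_cases h : a = b
    · simp [h, one_apply, eq_comm]
    · simp [h, Ne.symm h]

theorem sg_sq (b : Bool) : sg b ^ 2 = 1 := by cases b <;> simp [sg]

omit [Fintype ν] in
theorem fr_transpose (c : ℚ) (α : Bool × ν × ν) : (fr c α)ᵀ = sg α.1 • fr c α := by
  ext a b
  simp only [fr, transpose_apply, of_apply, Matrix.smul_apply, smul_eq_mul, xi_symm c b a]
  linear_combination (-xi c (a, b) α.2.1 α.2.2) * sg_sq α.1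

theorem casimir (c : ℚ) (u : FreeMonoid (ν × ν)) (hu : u.length = 2) :
    (FreeMonoid.lift (xi c) u).trace = ∑ α : Bool × ν × ν, sg α.1 / 4 * wd (fr c α) u := by
  obtain ⟨x, y, rfl⟩ := FreeMonoid.length_eq_two.1 hu
  simp only [map_mul, FreeMonoid.lift_eval_of, wd, fr, of_apply, Fintype.sum_prod_type,
    Fintype.sum_bool, sg, cond_true, cond_false, ← Finset.sum_add_distrib, Prod.mk.eta]
  have h1 : (xi c x * xi c y).trace = ∑ p, ∑ q, xi c x p q * xi c y q p := rfl
  have h2 : (xi c x * xi c y).trace = ∑ p, ∑ q, xi c x q p * xi c y p q := by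
    rw [h1, Finset.sum_comm]
  rw [← add_halves (trace _)]
  nth_rewrite 1 [h1]
  rw [h2]
  simp only [Finset.sum_div, ← Finset.sum_add_distrib]
  exact Finset.sum_congr rfl fun p _ => Finset.sum_congr rfl fun q _ => by ring

theorem rho_list (M : Fin k → Matrix ν ν ℚ) (L : List (Fin k × Bool)) : rho M (L.map lt).prod
    = (md M).mapMatrix (L.map fun l => ex (cond l.2 (uX l.1) (-uX l.1))).prod := by
  induction L with
  | nil => simp
  | cons l L ih =>
    rw [List.map_cons, List.prod_cons, List.map_cons, List.prod_cons, map_mul, map_mul, ih,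
      map_ex ((md M).mapMatrix (m := ν))]
    congr 1
    rcases l with ⟨j, _ | _⟩
    · simp only [lt, cond_false, rho_inv, map_neg, md_uX]
    · simp only [lt, cond_true, rho_of, md_uX]

theorem endgame (hk : 0 < k) (c : ℚ) {w : FreeGroup (Fin k)} (hw : ∀ j, kill j w = 1)
    (h : ∑ α : Fin k → Bool × Fin (k + 1) × Fin (k + 1), (∏ j, sg (α j).1 / 4) *
      cf 2 le_rfl (rho (fun j => fr c (α j)) w).trace = 0) (π : Equiv.Perm (Fin k)) :
    milnor π w = 0 := by
  have h1 : ∀ α : Fin k → Bool × Fin (k + 1) × Fin (k + 1), (∏ j, sg (α j).1 / 4) *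
      cf 2 le_rfl (rho (fun j => fr c (α j)) w).trace = -((-1 / 4) ^ k / 2) *
        ∑ a, ∑ b, cf 1 one_le_two (rho (fun j => fr c (α j)) w a b) ^ 2 := by
    intro α
    have := squares hk (fun j => fr c (α j)) (fun j => sg (α j).1) (fun j => sg_sq _)
      (fun j => fr_transpose c _) hw
    have e : (∏ j, sg (α j).1 / 4) * ∏ j, -sg (α j).1 = (-1 / 4) ^ k := by
      rw [← Finset.prod_mul_distrib, Finset.prod_congr rfl (g := fun _ => (-1 / 4 : ℚ))
        fun j _ => by linear_combination (-1 / 4) * sg_sq (α j).1]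
      simp [div_pow]
    rw [← e]
    linear_combination (∏ j, sg (α j).1 / 4) / 2 * this
  simp only [h1, ← Finset.mul_sum] at h
  have h2 := (mul_eq_zero.1 h).resolve_left (by simp)
  have h3 : ∀ α : Fin k → Bool × Fin (k + 1) × Fin (k + 1), ∀ a b,
      cf 1 one_le_two (rho (fun j => fr c (α j)) w a b) = 0 := by
    intro α a b
    rw [Finset.sum_eq_zero_iff_of_nonneg fun _ _ => by positivity] at h2
    have h4 := h2 α (Finset.mem_univ _)
    rw [Finset.sum_eq_zero_iff_of_nonneg fun _ _ => by positivity] at h4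
    have h5 := h4 a (Finset.mem_univ _)
    rw [Finset.sum_eq_zero_iff_of_nonneg fun _ _ => by positivity] at h5
    exact pow_eq_zero_iff two_ne_zero |>.1 (h5 b (Finset.mem_univ _))
  obtain ⟨L, rfl⟩ := exists_list w
  have h6 := average 1 one_le_two (fun _ : Bool => (1 / 2 : ℚ))
    (fun j b => fr c (b, (π j).castSucc, (π j).succ))
    (cf 1 one_le_two ∘ₗ (md fun j => single (π j).castSucc (π j).succ 1).toLinearMap)
    (fun j => wd (single (π j).castSucc (π j).succ 1))
    (fun u => cf_md 1 one_le_two _ u) (fun j u hu => by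
      obtain ⟨⟨a, b⟩, rfl⟩ := FreeMonoid.length_eq_one.1 hu
      have : xi c (a, b) (π j).succ (π j).castSucc
          = single (π j).castSucc (π j).succ (1 : ℚ) a b := by
        rw [xi_symm]
        by_cases hab : b = a <;>
          simp [xi, hab, one_apply_ne (π j).castSucc_lt_succ.ne, single_apply, eq_comm]
      simp only [wd, FreeMonoid.lift_eval_of, Fintype.sum_bool, fr, of_apply, sg, cond_true,
        cond_false, this]
      ring)
    ((L.map fun l => ex (cond l.2 (uX l.1) (-uX l.1))).prod 0 (Fin.last k))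
  have h7 := cf_milnor π (L.map lt).prod
  rw [rho_list] at h7
  simp only [rho_list] at h3
  rw [Finset.sum_eq_zero fun α _ => mul_eq_zero_of_right _
    (h3 (fun j => (α j, (π j).castSucc, (π j).succ)) 0 (Fin.last k))] at h6
  exact_mod_cast h7.symm.trans h6

end Pool.Agent.Lib.MP_140c34_gt
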